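import Mathlib
import Pool.Agent.U93.L.Pair

/-!
# Functions of the cycle type with vanishing mixed differences of order two
-/

set_option autoImplicit false
set_option linter.unusedSectionVars false

namespace Pool.Agent.U93.Q

open Pool.Agent.U93.L

/-- the exceptional cycle lengths in degree `n`: the primes `l` with `n < 2 l + 4` and the powers of
two `l` with `n < l + 4` -/
def Exc (n l : ℕ) : Prop := (l.Prime ∧ n < 2 * l + 4) ∨ ∃ j, l = 2 ^ j ∧ n < l + 4

/-- all entries are at least two -/
def Ok (s : Multiset ℕ) : Prop := ∀ x ∈ s, 2 ≤ x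

lemma Ok.add {s t : Multiset ℕ} (hs : Ok s) (ht : Ok t) : Ok (s + t) := fun x hx =>
  (Multiset.mem_add.mp hx).elim (hs x) (ht x)

lemma Ok.sing {l : ℕ} (hl : 2 ≤ l) : Ok {l} := fun x hx => by
  rw [Multiset.mem_singleton] at hx; rw [hx]; exact hl

lemma Ok.zero : Ok 0 := fun x hx => absurd hx (Multiset.notMem_zero x)

lemma Ok.ee (l : ℕ) : Ok (ee l) := by
  unfold L.ee
  split_ifs
  · exact Ok.sing le_rfl
  · exact Ok.zero

lemma Ok.rep {l : ℕ} (hl : 2 ≤ l) (k : ℕ) : Ok (Multiset.replicate k l) := fun x hx => by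
  rw [Multiset.eq_of_mem_replicate hx]; exact hl

lemma sg_add (s t : Multiset ℕ) : sg (s + t) = sg s * sg t := by
  unfold sg
  rw [Multiset.sum_add, Multiset.card_add, ← pow_add]
  congr 1
  ring

lemma sg_zero : sg 0 = 1 := by simp [sg]

lemma sg_two : sg {2} = -1 := by
  unfold sg
  rw [Multiset.sum_singleton, Multiset.card_singleton]; rfl

lemma ee_sum_le {l : ℕ} (hl : 2 ≤ l) : (ee l).sum ≤ l := by
  unfold ee
  split_ifs
  · rw [Multiset.sum_singleton]; exact hl
  · rw [Multiset.sum_zero]; omega

/-- the relations -/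
structure Rel (n : ℕ) (f : Multiset ℕ → ℂ) : Prop where
  four : ∀ a b a' b' : Multiset ℕ, Ok a → Ok b → Ok a' → Ok b' → sg a = sg b → sg a' = sg b' →
    max a.sum b.sum + max a'.sum b'.sum ≤ n → f (a + a') - f (a + b') - f (b + a') + f (b + b') = 0
  odd : ∀ q m : ℕ, q.Prime → q ≠ 2 → 2 ≤ m → ∀ s, Ok s → q * m + s.sum ≤ n →
    f ({q * m} + s) = f (Multiset.replicate q m + s)
  two : ∀ m : ℕ, 2 ≤ m → 2 * m + 4 ≤ n →
    f {m, m} + f ({m, m} + {2, 2}) = 2 * f ({2 * m} + {2})
  two' : ∀ m : ℕ, 2 ≤ m → 2 * m + 4 ≤ n →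
    2 * f ({m, m} + {2}) = f {2 * m} + f ({2 * m} + {2, 2})

section

variable {n : ℕ} {f : Multiset ℕ → ℂ} (h : Rel n f)

include h

/-- the contribution of a cycle depends on the sign of the rest only -/
lemma Rel.ctx {l : ℕ} (hl : 2 ≤ l) {s s' : Multiset ℕ} (hs : Ok s) (hs' : Ok s')
    (hsg : sg s = sg s') (h1 : l + s.sum ≤ n) (h2 : l + s'.sum ≤ n) :
    f ({l} + s) - f (ee l + s) = f ({l} + s') - f (ee l + s') := by
  have h3 := h.four {l} (ee l) s s' (Ok.sing hl) (Ok.ee l) hs hs' (sg_ee l) hsg (by
    rw [Multiset.sum_singleton, max_eq_left (ee_sum_le hl)]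
    rcases max_choice s.sum s'.sum with h4 | h4 <;> rw [h4] <;> assumption)
  linear_combination h3

/-- normalization: the two values at small involutions agree -/
structure Nrm (f : Multiset ℕ → ℂ) : Prop where
  even : f {2, 2} = f 0
  odd : f ({2, 2} + {2}) = f {2}

lemma Rel.del (hn : Nrm f) (h6 : 6 ≤ n) {s : Multiset ℕ} (hs : Ok s) (h1 : 4 + s.sum ≤ n) :
    f ({2, 2} + s) = f s := by
  have ho : Ok {2, 2} := by
    rw [show ({2, 2} : Multiset ℕ) = {2} + {2} from rfl]
    exact (Ok.sing le_rfl).add (Ok.sing le_rfl)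
  rcases Int.units_eq_one_or (sg s) with h2 | h2
  · have h3 := h.four {2, 2} 0 s 0 ho Ok.zero hs Ok.zero sg_two_two (by rw [h2, sg_zero]) (by
      rw [Multiset.sum_zero, max_eq_left (Nat.zero_le _), max_eq_left (Nat.zero_le _)]
      exact h1)
    rw [add_zero, zero_add, zero_add, hn.even] at h3
    linear_combination h3
  · have hs2 : 2 ≤ s.sum := by
      rcases Nat.eq_zero_or_pos s.card with h4 | h4
      · rw [Multiset.card_eq_zero] at h4
        rw [h4, sg_zero] at h2
        exact absurd h2 (by decide)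
      · obtain ⟨x, hx⟩ := Multiset.card_pos_iff_exists_mem.mp h4
        exact (hs x hx).trans (Multiset.le_sum_of_mem hx)
    have h3 := h.four {2, 2} 0 s {2} ho Ok.zero hs (Ok.sing le_rfl) sg_two_two
      (by rw [h2, sg_two]) (by
      rw [Multiset.sum_zero, max_eq_left (Nat.zero_le _), Multiset.sum_singleton,
        max_eq_left hs2]
      exact h1)
    rw [zero_add, zero_add, hn.odd] at h3
    linear_combination h3

/-- reduction to the small contexts -/
lemma Rel.red {l : ℕ} (hl : 2 ≤ l) (h0 : l ≤ n → f {l} = f (ee l))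
    (h2 : l + 2 ≤ n → f ({l} + {2}) = f (ee l + {2})) {s : Multiset ℕ} (hs : Ok s)
    (h1 : l + s.sum ≤ n) : f ({l} + s) = f (ee l + s) := by
  rcases Int.units_eq_one_or (sg s) with h3 | h3
  · have h4 := h.ctx hl hs Ok.zero (by rw [h3, sg_zero]) h1 (by rw [Multiset.sum_zero]; omega)
    rw [add_zero, add_zero, h0 (by omega)] at h4
    linear_combination h4
  · have hs2 : 2 ≤ s.sum := by
      rcases Nat.eq_zero_or_pos s.card with h4 | h4
      · rw [Multiset.card_eq_zero] at h4
        rw [h4, sg_zero] at h3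
        exact absurd h3 (by decide)
      · obtain ⟨x, hx⟩ := Multiset.card_pos_iff_exists_mem.mp h4
        exact (hs x hx).trans (Multiset.le_sum_of_mem hx)
    have h4 := h.ctx hl hs (Ok.sing (le_refl 2)) (by rw [h3, sg_two]) h1
      (by rw [Multiset.sum_singleton]; omega)
    rw [h2 (by omega)] at h4
    linear_combination h4

/-- the claim for one cycle length -/
def Pl (n : ℕ) (f : Multiset ℕ → ℂ) (l : ℕ) : Prop :=
  ∀ s, Ok s → l + s.sum ≤ n → f ({l} + s) = f (ee l + s)

lemma Rel.rep {m : ℕ} (hm : 2 ≤ m) (hP : Pl n f m) : ∀ (k : ℕ) (s : Multiset ℕ), Ok s →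
    k * m + s.sum ≤ n → f (Multiset.replicate k m + s) = f (k • ee m + s) := by
  intro k
  induction k with
  | zero => intro s _ _; simp
  | succ k ih =>
    intro s hs hsum
    have h1 : Multiset.replicate (k + 1) m + s = {m} + (Multiset.replicate k m + s) := by
      rw [Multiset.replicate_succ, ← Multiset.singleton_add, add_assoc]
    have h2 : (Multiset.replicate k m + s).sum = k * m + s.sum := by
      rw [Multiset.sum_add, Multiset.sum_replicate, smul_eq_mul]
    have h3 : (ee m + s).sum ≤ m + s.sum := by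
      rw [Multiset.sum_add]
      have := ee_sum_le hm
      omega
    rw [h1, hP _ ((Ok.rep hm k).add hs) (by rw [h2]; linarith [add_mul k 1 m, hsum]),
      ← add_assoc, add_comm (ee m), add_assoc,
      ih (ee m + s) ((Ok.ee m).add hs) (by linarith [add_mul k 1 m, hsum])]
    rw [succ_nsmul, add_assoc]

lemma Rel.twos (hn : Nrm f) (h6 : 6 ≤ n) : ∀ (k : ℕ) (s : Multiset ℕ), Ok s →
    4 * k + s.sum ≤ n → f ((2 * k) • {2} + s) = f s := by
  intro k
  induction k with
  | zero => intro s _ _; simp
  | succ k ih =>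
    intro s hs hsum
    have h1 : (2 * (k + 1)) • ({2} : Multiset ℕ) + s = {2, 2} + ((2 * k) • {2} + s) := by
      rw [mul_add, mul_one, add_nsmul, two_nsmul, show ({2, 2} : Multiset ℕ) = {2} + {2} from rfl]
      abel
    have h2 : ((2 * k) • ({2} : Multiset ℕ) + s).sum = 4 * k + s.sum := by
      rw [Multiset.sum_add, Multiset.sum_nsmul, Multiset.sum_singleton, smul_eq_mul]
      ring
    have h3 : Ok ((2 * k) • ({2} : Multiset ℕ) + s) := by
      refine Ok.add ?_ hs
      rw [Multiset.nsmul_singleton]
      exact Ok.rep le_rfl _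
    rw [h1, h.del hn h6 h3 (by rw [h2]; omega), ih s hs (by omega)]

/-- multiplication by an odd prime -/
lemma Rel.step_odd (hn : Nrm f) (h6 : 6 ≤ n) {q m : ℕ} (hq : q.Prime) (hq2 : q ≠ 2) (hm : 2 ≤ m)
    (hP : Pl n f m) : Pl n f (q * m) := by
  intro s hs hsum
  have hqo : Odd q := hq.odd_of_ne_two hq2
  rw [h.odd q m hq hq2 hm s hs hsum, h.rep hm hP q s hs hsum]
  by_cases he : Even m
  · have h1 : ee m = {2} := if_pos he
    have h2 : ee (q * m) = {2} := if_pos (he.mul_left q)
    obtain ⟨k, hk⟩ := hqo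
    rw [h1, h2, hk, add_nsmul, one_nsmul, add_assoc, h.twos hn h6 k ({2} + s)
      ((Ok.sing le_rfl).add hs)]
    rw [Multiset.sum_add, Multiset.sum_singleton]
    rw [hk] at hsum
    nlinarith
  · have h1 : ee m = 0 := if_neg he
    have h2 : ee (q * m) = 0 := if_neg (by
      rw [Nat.even_mul, not_or]
      exact ⟨Nat.not_even_iff_odd.mpr hqo, he⟩)
    rw [h1, h2, nsmul_zero]

/-- multiplication by two -/
lemma Rel.step_two (hn : Nrm f) (h6 : 6 ≤ n) {m : ℕ} (hm : 2 ≤ m) (h4 : 2 * m + 4 ≤ n)
    (hP : Pl n f m) : Pl n f (2 * m) := by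
  have hee : ee (2 * m) = {2} := if_pos (even_two_mul m)
  have hmm : ∀ s, Ok s → 2 * m + s.sum ≤ n → f ({m, m} + s) = f s := by
    intro s hs hsum
    have h1 := h.rep hm hP 2 s hs hsum
    have h2 : (Multiset.replicate 2 m) = {m, m} := rfl
    rw [h2] at h1
    rw [h1]
    by_cases he : Even m
    · have h3 : ee m = {2} := if_pos he
      rw [h3]
      have := h.twos hn h6 1 s hs (by omega)
      rw [mul_one] at this
      exact this
    · have h3 : ee m = 0 := if_neg he
      rw [h3, nsmul_zero, zero_add]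
  have ho22 : Ok {2, 2} := by
    rw [show ({2, 2} : Multiset ℕ) = {2} + {2} from rfl]
    exact (Ok.sing le_rfl).add (Ok.sing le_rfl)
  intro s hs hsum
  refine h.red (by omega) (fun _ => ?_) (fun _ => ?_) hs hsum
  · rw [hee]
    have h1 := h.two' m hm h4
    rw [hmm {2} (Ok.sing le_rfl) (by rw [Multiset.sum_singleton]; omega), add_comm {2 * m} {2, 2},
      h.del hn h6 (Ok.sing (by omega)) (by rw [Multiset.sum_singleton]; omega)] at h1
    linear_combination -(1 / 2) * h1
  · rw [hee]
    have h1 := h.two m hm h4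
    have h2 := hmm 0 Ok.zero (by rw [Multiset.sum_zero]; omega)
    rw [add_zero] at h2
    rw [hmm {2, 2} ho22 (by
      rw [show ({2, 2} : Multiset ℕ).sum = 4 from rfl]; omega), h2, hn.even] at h1
    have h3 : f ({2} + {2}) = f 0 := hn.even
    rw [h3]
    linear_combination -(1 / 2) * h1

/-- division by two for odd primes -/
lemma Rel.step_half (hn : Nrm f) (h6 : 6 ≤ n) {p : ℕ} (hp : p.Prime) (hp2 : p ≠ 2)
    (h4 : 2 * p + 4 ≤ n) (hP : Pl n f (2 * p)) : Pl n f p := by
  have hpo : Odd p := hp.odd_of_ne_two hp2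
  have hee : ee p = 0 := if_neg (Nat.not_even_iff_odd.mpr hpo)
  have hee2 : ee (2 * p) = {2} := if_pos (even_two_mul p)
  have h2p := hp.two_le
  have hsgp : sg {p} = 1 := by rw [sg_ee, hee, sg_zero]
  intro s hs hsum
  refine h.red h2p (fun _ => ?_) (fun _ => ?_) hs hsum
  · rw [hee]
    have h1 := h.two p h2p h4
    have h2 : f ({p, p} + {2, 2}) = f {p, p} := by
      rw [add_comm]
      exact h.del hn h6 ((Ok.sing h2p).add (Ok.sing h2p)) (by
        rw [show ({p, p} : Multiset ℕ) = {p} + {p} from rfl, Multiset.sum_add,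
          Multiset.sum_singleton]; omega)
    have h3 := hP {2} (Ok.sing le_rfl) (by rw [Multiset.sum_singleton]; omega)
    rw [hee2] at h3
    have h5 : f ({2} + {2}) = f 0 := hn.even
    rw [h5] at h3
    rw [h2, h3] at h1
    have h6 := h.ctx h2p (s := {p}) (s' := 0) (Ok.sing h2p) Ok.zero (by rw [hsgp, sg_zero])
      (by rw [Multiset.sum_singleton]; omega) (by rw [Multiset.sum_zero]; omega)
    rw [hee, zero_add, add_zero, add_zero] at h6
    have h7 : f ({p} + {p}) = f {p, p} := rfl
    rw [h7] at h6
    linear_combination (1 / 4) * h1 - (1 / 2) * h6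
  · rw [hee, zero_add]
    have h1 := h.two' p h2p h4
    have h2 : f ({2 * p} + {2, 2}) = f {2 * p} := by
      rw [add_comm]
      exact h.del hn h6 (Ok.sing (by omega)) (by rw [Multiset.sum_singleton]; omega)
    have h3 := hP 0 Ok.zero (by rw [Multiset.sum_zero]; omega)
    rw [add_zero, add_zero, hee2] at h3
    rw [h2, h3] at h1
    have h6 := h.ctx h2p (s := {p} + {2}) (s' := {2}) ((Ok.sing h2p).add (Ok.sing le_rfl))
      (Ok.sing le_rfl) (by rw [sg_add, hsgp, one_mul])
      (by rw [Multiset.sum_add, Multiset.sum_singleton, Multiset.sum_singleton]; omega)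
      (by rw [Multiset.sum_singleton]; omega)
    rw [hee, zero_add, zero_add] at h6
    have h7 : f ({p} + ({p} + {2})) = f ({p, p} + {2}) := by
      rw [← add_assoc]; rfl
    rw [h7] at h6
    linear_combination (1 / 4) * h1 - (1 / 2) * h6

/-- the claim for all regular cycle lengths -/
theorem Rel.all (hn : Nrm f) (h12 : 12 ≤ n) : ∀ l : ℕ, 2 ≤ l → l ≤ n → ¬ Exc n l → Pl n f l := by
  have h6 : 6 ≤ n := by omega
  have h2P : Pl n f 2 := by
    intro s _ _
    have : ee 2 = {2} := if_pos even_two
    rw [this]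
  intro l
  induction l using Nat.strong_induction_on with
  | _ l ih =>
    intro hl hln hexc
    by_cases hpr : l.Prime
    · by_cases hl2 : l = 2
      · rw [hl2]; exact h2P
      have h4 : 2 * l + 4 ≤ n := by
        by_contra hcon
        exact hexc (Or.inl ⟨hpr, by omega⟩)
      have h5 : Pl n f (2 * l) := by
        rw [mul_comm]
        exact h.step_odd hn h6 hpr hl2 le_rfl h2P
      exact h.step_half hn h6 hpr hl2 h4 h5
    · by_cases hodd : ∃ q : ℕ, q.Prime ∧ q ≠ 2 ∧ q ∣ l
      · obtain ⟨q, hq, hq2, m, rfl⟩ := hodd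
        have hq3 : 3 ≤ q := by
          have := hq.two_le
          omega
        have hm : 2 ≤ m := by
          rcases Nat.lt_or_ge m 2 with h7 | h7
          · interval_cases m
            · omega
            · rw [mul_one] at hpr; exact absurd hq hpr
          · exact h7
        have hmn : 3 * m ≤ n := le_trans (Nat.mul_le_mul_right m hq3) hln
        refine h.step_odd hn h6 hq hq2 hm (ih m (by nlinarith) hm (by omega) ?_)
        rintro (⟨_, h8⟩ | ⟨_, _, h8⟩)
        · omega
        · omega
      · -- powers of two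
        have hpow : ∃ j, l = 2 ^ j := by
          refine ⟨l.primeFactorsList.length, ?_⟩
          push Not at hodd
          exact Nat.eq_prime_pow_of_unique_prime_dvd (n := l) (p := 2) (by omega)
            (fun {d} hd hdl => by
              by_contra h9
              exact hodd d hd h9 hdl)
        obtain ⟨j, hj⟩ := hpow
        have h4 : l + 4 ≤ n := by
          by_contra hcon
          exact hexc (Or.inr ⟨j, hj, by omega⟩)
        have hj1 : 2 ≤ j := by
          rcases Nat.lt_or_ge j 2 with h7 | h7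
          · interval_cases j
            · omega
            · rw [hj] at hpr; exact absurd (by norm_num) hpr
          · exact h7
        obtain ⟨i, rfl⟩ : ∃ i, j = i + 1 := ⟨j - 1, by omega⟩
        have h7 : l = 2 * 2 ^ i := by rw [hj, pow_succ]; ring
        have h8 : 2 ≤ 2 ^ i := by
          calc 2 = 2 ^ 1 := rfl
            _ ≤ 2 ^ i := Nat.pow_le_pow_right (by norm_num) (by omega)
        rw [h7]
        refine h.step_two hn h6 h8 (by omega) (ih (2 ^ i) (by omega) h8 (by omega) ?_)
        rintro (⟨h9, h10⟩ | ⟨_, _, h10⟩)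
        · have h11 : 2 ^ i = 2 := by
            rcases Nat.eq_zero_or_pos i with h12 | h12
            · subst h12; omega
            · have h13 := (Nat.prime_dvd_prime_iff_eq Nat.prime_two h9).mp
                (dvd_pow_self 2 h12.ne')
              exact h13.symm
          omega
        · omega

end

/-- the slope: the contribution of a fixed point -/
noncomputable def gam (f : Multiset ℕ → ℂ) (e : ℤˣ) : ℂ :=
  if e = 1 then (f 0 - f {2, 2}) / 4 else (f {2} - f ({2, 2} + {2})) / 4

/-- the normalized function -/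
noncomputable def nor (f : Multiset ℕ → ℂ) (s : Multiset ℕ) : ℂ :=
  f s + gam f (sg s) * s.sum

lemma nor_nrm (f : Multiset ℕ → ℂ) : Nrm (nor f) := by
  constructor
  · have h1 : gam f 1 = (f 0 - f {2, 2}) / 4 := if_pos rfl
    have h2 : (({2, 2} : Multiset ℕ).sum) = 4 := rfl
    rw [nor, nor, sg_two_two, sg_zero, h1, h2, Multiset.sum_zero]
    push_cast
    ring
  · have h1 : gam f (-1) = (f {2} - f ({2, 2} + {2})) / 4 := if_neg (by decide)
    have h2 : (({2, 2} + {2} : Multiset ℕ).sum) = 6 := rfl
    rw [nor, nor, sg_add, sg_two_two, sg_zero, sg_two, one_mul, h1, h2, Multiset.sum_singleton]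
    push_cast
    ring

lemma nor_rel {n : ℕ} {f : Multiset ℕ → ℂ} (h : Rel n f) : Rel n (nor f) := by
  constructor
  · intro a b a' b' ha hb ha' hb' h1 h2 h3
    have h4 := h.four a b a' b' ha hb ha' hb' h1 h2 h3
    simp only [nor, sg_add, Multiset.sum_add, h1, h2]
    push_cast
    linear_combination h4
  · intro q m hq hq2 hm s hs hsum
    have h4 := h.odd q m hq hq2 hm s hs hsum
    have h5 : sg ({q * m} + s) = sg (Multiset.replicate q m + s) := by
      rw [sg_add, sg_add]
      congr 1
      unfold sg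
      rw [Multiset.sum_singleton, Multiset.card_singleton, Multiset.sum_replicate,
        Multiset.card_replicate, smul_eq_mul, pow_add, pow_add, pow_one,
        (hq.odd_of_ne_two hq2).neg_one_pow]
    rw [nor, nor, h4, h5, Multiset.sum_add, Multiset.sum_add, Multiset.sum_singleton,
      Multiset.sum_replicate, smul_eq_mul]
  · intro m hm h4
    have h5 := h.two m hm h4
    have h6 : sg ({m, m} : Multiset ℕ) = 1 := by
      rw [show ({m, m} : Multiset ℕ) = {m} + {m} from rfl, sg_add, Int.units_mul_self]
    have h7 : sg ({2 * m} : Multiset ℕ) = -1 := by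
      rw [sg_ee, show ee (2 * m) = {2} from if_pos (even_two_mul m), sg_two]
    have h8 : (({m, m} : Multiset ℕ).sum) = 2 * m := by
      rw [show ({m, m} : Multiset ℕ) = {m} + {m} from rfl, Multiset.sum_add,
        Multiset.sum_singleton]
      ring
    have h9 : (({2, 2} : Multiset ℕ).sum) = 4 := rfl
    simp only [nor, sg_add, h6, h7, sg_two_two, sg_zero, sg_two, Multiset.sum_add,
      Multiset.sum_singleton, h8, h9, one_mul, mul_one, neg_mul_neg]
    push_cast
    linear_combination h5
  · intro m hm h4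
    have h5 := h.two' m hm h4
    have h6 : sg ({m, m} : Multiset ℕ) = 1 := by
      rw [show ({m, m} : Multiset ℕ) = {m} + {m} from rfl, sg_add, Int.units_mul_self]
    have h7 : sg ({2 * m} : Multiset ℕ) = -1 := by
      rw [sg_ee, show ee (2 * m) = {2} from if_pos (even_two_mul m), sg_two]
    have h8 : (({m, m} : Multiset ℕ).sum) = 2 * m := by
      rw [show ({m, m} : Multiset ℕ) = {m} + {m} from rfl, Multiset.sum_add,
        Multiset.sum_singleton]
      ring
    have h9 : (({2, 2} : Multiset ℕ).sum) = 4 := rfl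
    simp only [nor, sg_add, h6, h7, sg_two_two, sg_zero, sg_two, Multiset.sum_add,
      Multiset.sum_singleton, h8, h9, one_mul, mul_one, neg_mul_neg]
    push_cast
    linear_combination h5

/-- a normalized function with the relations depends on the sign only -/
lemma Rel.const {n : ℕ} {f : Multiset ℕ → ℂ} (h : Rel n f) (hn : Nrm f) (h12 : 12 ≤ n) :
    ∀ s : Multiset ℕ, Ok s → s.sum ≤ n → (∀ x ∈ s, ¬ Exc n x) →
      f s = if sg s = 1 then f 0 else f {2} := by
  have key : ∀ s : Multiset ℕ, ∀ k : ℕ, Ok s → 2 * k + s.sum ≤ n → (∀ x ∈ s, ¬ Exc n x) →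
      f (k • {2} + s) = if sg (k • {2} + s) = 1 then f 0 else f {2} := by
    intro s
    induction s using Multiset.induction_on with
    | empty =>
      intro k _ hk _
      rw [Multiset.sum_zero, add_zero] at hk
      rw [add_zero]
      obtain ⟨j, hj⟩ | ⟨j, hj⟩ := k.even_or_odd
      · have h1 := h.twos hn (by omega) j 0 Ok.zero (by rw [Multiset.sum_zero]; omega)
        rw [add_zero] at h1
        have h2 : k = 2 * j := by omega
        rw [h2, h1, mul_nsmul, show (2 • ({2} : Multiset ℕ)) = {2, 2} from rfl]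
        rw [if_pos]
        have : ∀ i : ℕ, sg (i • ({2, 2} : Multiset ℕ)) = 1 := by
          intro i
          induction i with
          | zero => rw [zero_nsmul, sg_zero]
          | succ i ih => rw [succ_nsmul, sg_add, ih, sg_two_two, sg_zero, one_mul]
        exact this j
      · have h1 := h.twos hn (by omega) j {2} (Ok.sing le_rfl)
          (by rw [Multiset.sum_singleton]; omega)
        rw [hj, add_nsmul, one_nsmul, h1, mul_nsmul,
          show (2 • ({2} : Multiset ℕ)) = {2, 2} from rfl]
        rw [if_neg]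
        have : ∀ i : ℕ, sg (i • ({2, 2} : Multiset ℕ)) = 1 := by
          intro i
          induction i with
          | zero => rw [zero_nsmul, sg_zero]
          | succ i ih => rw [succ_nsmul, sg_add, ih, sg_two_two, sg_zero, one_mul]
        rw [sg_add, this j, sg_two]
        decide
    | cons a s ih =>
      intro k hs hk hexc
      have ha : 2 ≤ a := hs a (Multiset.mem_cons_self a s)
      have hs' : Ok s := fun x hx => hs x (Multiset.mem_cons_of_mem hx)
      rw [Multiset.sum_cons] at hk
      have hP := h.all hn h12 a ha (by omega) (hexc a (Multiset.mem_cons_self a s))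
      have h1 : k • ({2} : Multiset ℕ) + (a ::ₘ s) = {a} + (k • {2} + s) := by
        rw [← Multiset.singleton_add]
        abel
      have hok : Ok (k • ({2} : Multiset ℕ) + s) := by
        refine Ok.add ?_ hs'
        rw [Multiset.nsmul_singleton]
        exact Ok.rep le_rfl _
      have hsum : (k • ({2} : Multiset ℕ) + s).sum = 2 * k + s.sum := by
        rw [Multiset.sum_add, Multiset.sum_nsmul, Multiset.sum_singleton, smul_eq_mul]
        ring
      rw [h1, hP _ hok (by rw [hsum]; omega), sg_add, sg_ee a, ← sg_add]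
      by_cases he : Even a
      · have h2 : ee a = {2} := if_pos he
        have h3 : ({2} : Multiset ℕ) + (k • {2} + s) = (k + 1) • {2} + s := by
          rw [add_nsmul, one_nsmul]
          abel
        rw [h2, h3]
        exact ih (k + 1) hs' (by omega) fun x hx => hexc x (Multiset.mem_cons_of_mem hx)
      · have h2 : ee a = 0 := if_neg he
        rw [h2, zero_add]
        exact ih k hs' (by omega) fun x hx => hexc x (Multiset.mem_cons_of_mem hx)
  intro s hs hsum hexc
  have h1 := key s 0 hs (by omega) hexc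
  rwa [zero_nsmul, zero_add] at h1

/-- **the shape of the function** -/
theorem Rel.shape {n : ℕ} {f : Multiset ℕ → ℂ} (h : Rel n f) (h12 : 12 ≤ n) :
    ∀ s : Multiset ℕ, Ok s → s.sum ≤ n → (∀ x ∈ s, ¬ Exc n x) →
      f s = (if sg s = 1 then f 0 else f {2} + 2 * gam f (-1)) - gam f (sg s) * s.sum := by
  intro s hs hsum hexc
  have h1 := (nor_rel h).const (nor_nrm f) h12 s hs hsum hexc
  have h2 : nor f 0 = f 0 := by rw [nor, Multiset.sum_zero]; simp
  have h3 : nor f {2} = f {2} + 2 * gam f (-1) := by
    rw [nor, Multiset.sum_singleton, sg_two]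
    push_cast
    ring
  rw [h2, h3, nor] at h1
  rw [← h1]
  ring

end Pool.Agent.U93.Q
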