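import Mathlib
import Pool.Agent.U93.Q.Comb
import Pool.Agent.R389.Compl

/-!
# Artin L-functions over intermediate fields, from the shape of the Heilbronn function
-/

set_option autoImplicit false
set_option linter.unusedSectionVars false

namespace Pool.Agent.U93.Q

open Equiv Equiv.Perm Pool.Agent.H302R2 Pool.Agent.H541R3.ART Pool.Agent.W446.AS
  Pool.Agent.R389

variable {α : Type} [Fintype α] [DecidableEq α]

/-- the number of fixed points -/
def fx (g : Perm α) : ℕ := (Finset.univ.filter fun a => g a = a).card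

/-- the sign as a complex number -/
def sn (g : Perm α) : ℂ := ((sign g : ℤ) : ℂ)

lemma fx_add (g : Perm α) : fx g + g.support.card = Fintype.card α := by
  have h1 : g.support = Finset.univ.filter fun a => ¬ g a = a := by
    ext a
    simp [mem_support]
  rw [fx, h1, Finset.card_filter_add_card_filter_not]
  exact Finset.card_univ

lemma sn_sq (g : Perm α) : sn g * sn g = 1 := by
  unfold sn
  rcases Int.units_eq_one_or (sign g) with h | h <;> rw [h] <;> simp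

lemma sn_inv (g : Perm α) : sn g⁻¹ = sn g := by
  unfold sn
  rw [sign_inv]

lemma fx_inv (g : Perm α) : fx g⁻¹ = fx g := by
  unfold fx
  congr 1
  ext a
  simp only [Finset.mem_filter, Finset.mem_univ, true_and]
  rw [inv_eq_iff_eq, eq_comm]

/-- the sign character -/
def sgH : Perm α →* ℂˣ := (Units.map (Int.castRingHom ℂ).toMonoidHom).comp sign

lemma sgH_coe (g : Perm α) : ((sgH g : ℂˣ) : ℂ) = sn g := rfl

section pair

variable {M : Type} [Group M] [Finite M]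

lemma fix_pair [Fintype M] (φ : M →* Perm α) {χ : M → ℂ} (hχ : χ ∈ Irr M) (ψ : M →* ℂˣ) :
    ∃ k : ℝ, 0 ≤ k ∧ ∑ h : M, ((ψ h : ℂˣ) : ℂ) * (fx (φ h) : ℂ) * χ h⁻¹ = k := by
  classical
  have h1 : ∀ a : α, ∃ k : ℝ, 0 ≤ k ∧
      ∑ h : M, ((ψ h : ℂˣ) : ℂ) * (if φ h a = a then 1 else 0) * χ h⁻¹ = k := by
    intro a
    let S : Subgroup M := (MulAction.stabilizer (Perm α) a).comap φ
    have hS : ∀ h, h ∈ S ↔ φ h a = a := fun h => Iff.rfl
    obtain ⟨m, hm⟩ := exists_mult hχ S (ψ.comp S.subtype)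
    refine ⟨m * Nat.card S, by positivity, ?_⟩
    have : Fintype S := Fintype.ofFinite S
    rw [finsum_eq_sum_of_fintype] at hm
    push_cast
    rw [← hm, ← Equiv.sum_comp (Equiv.inv M)]
    have h2 : ∑ h : S, χ h * ((((ψ.comp S.subtype) h)⁻¹ : ℂˣ) : ℂ)
        = ∑ h ∈ Finset.univ.filter (fun h : M => h ∈ S), χ h * (((ψ h)⁻¹ : ℂˣ) : ℂ) := by
      symm
      exact Finset.sum_subtype (p := fun h => h ∈ S) _
        (fun h => by rw [Finset.mem_filter]; simp) (fun h : M => χ h * (((ψ h)⁻¹ : ℂˣ) : ℂ))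
    rw [h2, Finset.sum_filter]
    refine Finset.sum_congr rfl fun h _ => ?_
    rw [Equiv.inv_apply, inv_inv, map_inv, map_inv]
    by_cases h3 : φ h a = a
    · have h4 : (φ h)⁻¹ a = a := by rw [inv_eq_iff_eq, h3]
      rw [if_pos h4, if_pos ((hS h).mpr h3)]
      ring
    · have h4 : ¬ (φ h)⁻¹ a = a := by
        intro h5
        rw [inv_eq_iff_eq] at h5
        exact h3 h5.symm
      rw [if_neg h4, if_neg (fun h5 => h3 ((hS h).mp h5))]
      ring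
  choose k hk0 hk using h1
  refine ⟨∑ a, k a, Finset.sum_nonneg fun a _ => hk0 a, ?_⟩
  push_cast
  rw [← Finset.sum_congr rfl (fun a _ => hk a), Finset.sum_comm]
  refine Finset.sum_congr rfl fun h _ => ?_
  rw [← Finset.sum_mul, ← Finset.mul_sum, Finset.sum_boole]
  rfl

/-- the shape of a function on a permutation group -/
def Shp {G : Type} [Group G] (n : ℕ) (ι : G →* Perm α) (θ : G → ℂ) (c₁ c₂ : ℕ) (a₁ a₂ : ℂ) : Prop :=
  ∀ g : G, (∀ x ∈ (ι g).cycleType, ¬ Exc n x) →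
    θ g = a₁ + a₂ * sn (ι g) + (c₁ + c₂ * sn (ι g)) * fx (ι g)

variable {G : Type} [Group G] [Finite G] {n : ℕ} {ι : G →* Perm α} {θ : G → ℂ} {c₁ c₂ : ℕ}
  {a₁ a₂ : ℂ}

lemma Shp.pair (hS : Shp n ι θ c₁ c₂ a₁ a₂) (hθ : IsHeilbronn θ) (M : Subgroup G) [Fintype M]
    (hM : ∀ h ∈ M, ∀ x ∈ (ι h).cycleType, ¬ Exc n x) {χ : M → ℂ} (hχ : χ ∈ Irr M) :
    (∃ k : ℝ, 0 ≤ k ∧ ∑ h : M, θ h * χ h⁻¹ = k) ∧
    ((χ ≠ fun _ => 1) → (χ ≠ fun h : M => sn (ι h)) → ∑ h : M, (fx (ι h) : ℂ) * χ h = 0 →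
      ∑ h : M, sn (ι h) * (fx (ι h) : ℂ) * χ h = 0 → ∑ h : M, θ h * χ h⁻¹ = 0) := by
  classical
  let ψ : M →* ℂˣ := sgH.comp (ι.comp M.subtype)
  have hψ : ∀ h : M, ((ψ h : ℂˣ) : ℂ) = sn (ι h) := fun h => rfl
  have h1I : (fun _ : M => (1 : ℂ)) ∈ Irr M := by
    have h := lin_irr (1 : M →* ℂˣ)
    simpa using h
  have hψI : (fun h : M => sn (ι h)) ∈ Irr M := lin_irr ψ
  have hgen : (χ ≠ fun _ => 1) → (χ ≠ fun h : M => sn (ι h)) → ∑ h : M, θ h * χ h⁻¹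
      = c₁ * ∑ h : M, (fx (ι h) : ℂ) * χ h⁻¹
        + c₂ * ∑ h : M, sn (ι h) * (fx (ι h) : ℂ) * χ h⁻¹ := by
    intro h1 h2
    have e1 := pair_ne h1I hχ (Ne.symm h1)
    have e2 := pair_ne hψI hχ (Ne.symm h2)
    have e3 : ∀ h : M, θ h * χ h⁻¹ = a₁ * (1 * χ h⁻¹) + a₂ * (sn (ι h) * χ h⁻¹)
        + c₁ * ((fx (ι h) : ℂ) * χ h⁻¹) + c₂ * (sn (ι h) * (fx (ι h) : ℂ) * χ h⁻¹) := by
      intro h
      rw [hS (h : G) (hM h h.2)]
      ring
    rw [Finset.sum_congr rfl (fun h _ => e3 h), Finset.sum_add_distrib, Finset.sum_add_distrib,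
      Finset.sum_add_distrib, ← Finset.mul_sum (a := a₁), ← Finset.mul_sum (a := a₂),
      ← Finset.mul_sum (a := (c₁ : ℂ)), ← Finset.mul_sum (a := (c₂ : ℂ)), e1, e2]
    ring
  constructor
  · by_cases h1 : χ = fun _ => 1
    · obtain ⟨m, hm⟩ := hθ.mult M 1
      refine ⟨m * Nat.card M, by positivity, ?_⟩
      rw [finsum_eq_sum_of_fintype] at hm
      push_cast
      rw [← hm, h1]
      simp
    by_cases h2 : χ = fun h : M => sn (ι h)
    · obtain ⟨m, hm⟩ := hθ.mult M ψ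
      refine ⟨m * Nat.card M, by positivity, ?_⟩
      rw [finsum_eq_sum_of_fintype] at hm
      push_cast
      rw [← hm, h2]
      refine Finset.sum_congr rfl fun h _ => ?_
      congr 1
      rw [← map_inv]
      rfl
    · rw [hgen h1 h2]
      obtain ⟨k, hk0, hk⟩ := fix_pair (ι.comp M.subtype) hχ 1
      obtain ⟨l, hl0, hl⟩ := fix_pair (ι.comp M.subtype) hχ ψ
      refine ⟨c₁ * k + c₂ * l, by positivity, ?_⟩
      push_cast
      rw [← hk, ← hl]
      simp only [MonoidHom.one_apply, Units.val_one, one_mul]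
      rfl
  · intro h1 h2 h3 h4
    rw [hgen h1 h2]
    have e1 : ∑ h : M, (fx (ι h) : ℂ) * χ h⁻¹ = 0 := by
      rw [← h3, ← Equiv.sum_comp (Equiv.inv M)]
      refine Finset.sum_congr rfl fun h _ => ?_
      rw [Equiv.inv_apply, inv_inv, Subgroup.coe_inv, map_inv, fx_inv]
    have e2 : ∑ h : M, sn (ι h) * (fx (ι h) : ℂ) * χ h⁻¹ = 0 := by
      rw [← h4, ← Equiv.sum_comp (Equiv.inv M)]
      refine Finset.sum_congr rfl fun h _ => ?_
      rw [Equiv.inv_apply, inv_inv, Subgroup.coe_inv, map_inv, fx_inv, sn_inv]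
    rw [e1, e2, mul_zero, mul_zero, add_zero]

end pair

section artin

variable {G : Type} [Group G] [Finite G] {s₀ : ℂ} (A : ArtinData G s₀)

/-- products of L-functions -/
lemma order_prod (m : (G → ℂ) → ℕ) :
    meromorphicOrderAt (fun s => ∏ᶠ X ∈ Irr G, A.L X s ^ m X) s₀
      = ((∑ X ∈ irrF G, (m X : ℤ) * A.ord X : ℤ) : WithTop ℤ) := by
  classical
  have h1 : (fun s => ∏ᶠ χ ∈ Irr G, A.L χ s ^ m χ)
      = fun s => ∏ χ ∈ irrF G, (A.L χ ^ m χ) s := by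
    funext s
    rw [finprod_mem_eq_finite_toFinset_prod _ (irr_finite (G := G))]
    rfl
  rw [h1, meromorphicOrderAt_fun_prod (fun χ hχ => ((A.mero χ (mem_irrF.mp hχ)).1).pow _)]
  rw [WithTop.coe_sum]
  refine Finset.sum_congr rfl fun χ hχ => ?_
  rw [meromorphicOrderAt_pow ((A.mero χ (mem_irrF.mp hχ)).1), ← A.coe_ord (mem_irrF.mp hχ)]
  push_cast
  rfl

/-- the multiplicity of a character of a subgroup -/
lemma theta_sub (n : (G → ℂ) → ℤ) (M : Subgroup G) [Fintype M] (f : M → ℂ) (m : (G → ℂ) → ℕ)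
    (hm : ∀ X ∈ Irr G, ∑ h : M, X h * f h⁻¹ = (m X : ℂ) * (Nat.card M : ℂ)) :
    ∑ h : M, theta n h * f h⁻¹
      = ((∑ X ∈ irrF G, (m X : ℤ) * n X : ℤ) : ℂ) * (Nat.card M : ℂ) := by
  classical
  unfold theta
  simp_rw [Finset.sum_mul]
  rw [Finset.sum_comm, Int.cast_sum, Finset.sum_mul]
  refine Finset.sum_congr rfl fun χ hχ => ?_
  have h1 := hm χ (mem_irrF.mp hχ)
  simp_rw [mul_assoc]
  rw [← Finset.mul_sum, h1]
  push_cast
  ring

variable {n : ℕ} {ι : G →* Perm α} {c₁ c₂ : ℕ} {a₁ a₂ : ℂ}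

/-- The Artin L-functions over the fixed field of `M` -/
theorem Shp.artin (hS : Shp n ι (theta A.ord) c₁ c₂ a₁ a₂) (M : Subgroup G)
    (hM : ∀ h ∈ M, ∀ x ∈ (ι h).cycleType, ¬ Exc n x) {χ : M → ℂ} (hχ : χ ∈ Irr M)
    (m : (G → ℂ) → ℕ) (hm : ∀ X ∈ Irr G, ∑ᶠ h : M, X h * χ h⁻¹ = (m X : ℂ) * Nat.card M) :
    0 ≤ meromorphicOrderAt (fun s => ∏ᶠ X ∈ Irr G, A.L X s ^ m X) s₀ ∧
    ((χ ≠ fun _ => 1) → (χ ≠ fun h : M => sn (ι h)) → ∑ᶠ h : M, (fx (ι h) : ℂ) * χ h = 0 →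
      ∑ᶠ h : M, sn (ι h) * (fx (ι h) : ℂ) * χ h = 0 →
      meromorphicOrderAt (fun s => ∏ᶠ X ∈ Irr G, A.L X s ^ m X) s₀ = 0) := by
  classical
  have : Fintype M := Fintype.ofFinite M
  have hcard : 0 < (Nat.card M : ℝ) := by exact_mod_cast Nat.card_pos
  obtain ⟨⟨k, hk0, hk⟩, h0⟩ := hS.pair A.isHeilbronn M hM hχ
  have h1 := theta_sub A.ord M χ m (fun X hX => by
    rw [← hm X hX, finsum_eq_sum_of_fintype])
  rw [order_prod]
  set K : ℤ := ∑ X ∈ irrF G, (m X : ℤ) * A.ord X with hK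
  constructor
  · rw [hk] at h1
    have h2 : k = (K : ℝ) * Nat.card M := by exact_mod_cast h1
    have h3 : (0 : ℝ) ≤ K := by
      by_contra hcon
      push Not at hcon
      nlinarith
    exact_mod_cast h3
  · intro e1 e2 e3 e4
    rw [finsum_eq_sum_of_fintype] at e3 e4
    rw [h0 e1 e2 e3 e4] at h1
    have h2 : (0 : ℝ) = (K : ℝ) * Nat.card M := by exact_mod_cast h1
    have h3 : (K : ℝ) = 0 := by
      rcases mul_eq_zero.mp h2.symm with h4 | h4
      · exact h4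
      · exact absurd h4 hcard.ne'
    have h4 : K = 0 := by exact_mod_cast h3
    rw [h4]
    rfl

/-- orders of L-functions of linear characters as sums of the Heilbronn function -/
lemma lin_sum (H : Subgroup G) [Fintype H] (ψ : H →* ℂˣ) : ∃ k : ℤ,
    meromorphicOrderAt (A.Lin H ψ) s₀ = (k : WithTop ℤ) ∧
    ∑ h : H, (theta A.ord : G → ℂ) h * (((ψ h)⁻¹ : ℂˣ) : ℂ) = (k : ℂ) * Nat.card H := by
  classical
  choose! m hm using fun (χ : G → ℂ) (hχ : χ ∈ Irr G) => exists_mult hχ H ψ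
  refine ⟨_, A.order_Lin H ψ m hm, ?_⟩
  rw [← theta_mult A.ord H ψ m hm, finsum_eq_sum_of_fintype]

/-- The quotients of the L-functions of linear characters -/
theorem Shp.ded (hS : Shp n ι (theta A.ord) c₁ c₂ a₁ a₂) (U M : Subgroup G) (hUM : U ≤ M)
    (hM : ∀ h ∈ M, ∀ x ∈ (ι h).cycleType, ¬ Exc n x) (ρ : M →* ℂˣ) :
    meromorphicOrderAt (A.Lin M ρ) s₀
      ≤ meromorphicOrderAt (A.Lin U (ρ.comp (Subgroup.inclusion hUM))) s₀ := by
  classical
  have : Fintype M := Fintype.ofFinite M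
  have : Fintype U := Fintype.ofFinite U
  have hcM : (Nat.card M : ℂ) ≠ 0 := card_ne
  have hcU : 0 < (Nat.card U : ℝ) := by exact_mod_cast Nat.card_pos
  have hcMr : 0 < (Nat.card M : ℝ) := by exact_mod_cast Nat.card_pos
  set θ : G → ℂ := theta A.ord with hθ
  have hH : IsHeilbronn θ := A.isHeilbronn
  obtain ⟨k, hk, hk'⟩ := lin_sum A M ρ
  obtain ⟨l, hl, hl'⟩ := lin_sum A U (ρ.comp (Subgroup.inclusion hUM))
  rw [hk, hl]
  -- the expansion over `M`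
  let f : M → ℂ := fun h => θ h
  have hf : ∀ g x : M, f (x * g * x⁻¹) = f g := fun g x => hH.conj (g : G) (x : G)
  have hpr : ∀ χ ∈ irrF M, ∃ e : ℝ, 0 ≤ e ∧ pr f χ = e := by
    intro χ hχ
    obtain ⟨⟨e, he0, he⟩, -⟩ := hS.pair hH M hM (mem_irrF.mp hχ)
    refine ⟨(Nat.card M : ℝ)⁻¹ * e, by positivity, ?_⟩
    rw [pr_eq]
    push_cast
    rw [← he]
  choose! e he0 he using hpr
  let U' : Subgroup M := U.subgroupOf M
  have hmult : ∀ χ ∈ irrF M, ∃ w : ℕ,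
      ∑ u : U, χ (Subgroup.inclusion hUM u) * (((ρ (Subgroup.inclusion hUM u))⁻¹ : ℂˣ) : ℂ)
        = (w : ℂ) * Nat.card U := by
    intro χ hχ
    obtain ⟨w, hw⟩ := exists_mult (mem_irrF.mp hχ) U' (ρ.comp U'.subtype)
    refine ⟨w, ?_⟩
    have : Fintype U' := Fintype.ofFinite U'
    rw [finsum_eq_sum_of_fintype] at hw
    let ee : U' ≃* U := Subgroup.subgroupOfEquivOfLe hUM
    have h1 : Nat.card U' = Nat.card U := Nat.card_congr ee.toEquiv
    rw [h1] at hw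
    rw [← hw, ← Equiv.sum_comp ee.toEquiv]
    rfl
  choose! w hw using hmult
  have hρI : (fun h : M => ((ρ h : ℂˣ) : ℂ)) ∈ irrF M := mem_irrF.mpr (lin_irr ρ)
  have hwρ : w (fun h : M => ((ρ h : ℂˣ) : ℂ)) = 1 := by
    have h1 := hw _ hρI
    have h2 : ∀ u : U, ((ρ (Subgroup.inclusion hUM u) : ℂˣ) : ℂ)
        * (((ρ (Subgroup.inclusion hUM u))⁻¹ : ℂˣ) : ℂ) = 1 := fun u => Units.mul_inv _
    rw [Finset.sum_congr rfl (fun u _ => h2 u), Finset.sum_const, Finset.card_univ,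
      nsmul_eq_mul, mul_one, ← Nat.card_eq_fintype_card] at h1
    have h3 : (Nat.card U : ℂ) ≠ 0 := card_ne
    have h4 : ((w (fun h : M => ((ρ h : ℂˣ) : ℂ)) : ℕ) : ℂ) = 1 := by
      apply mul_right_cancel₀ h3
      rw [← h1, one_mul]
    exact_mod_cast h4
  have hlsum : (l : ℂ) * Nat.card U = (∑ χ ∈ irrF M, (e χ : ℂ) * w χ) * Nat.card U := by
    rw [← hl', Finset.sum_mul]
    have h1 : ∀ u : U, θ u * ((((ρ.comp (Subgroup.inclusion hUM)) u)⁻¹ : ℂˣ) : ℂ)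
        = ∑ χ ∈ irrF M, (e χ : ℂ) * (χ (Subgroup.inclusion hUM u)
          * (((ρ (Subgroup.inclusion hUM u))⁻¹ : ℂˣ) : ℂ)) := by
      intro u
      have h2 := class_expand hf (Subgroup.inclusion hUM u)
      have h3 : f (Subgroup.inclusion hUM u) = θ u := rfl
      rw [← h3, h2, Finset.sum_mul]
      refine Finset.sum_congr rfl fun χ hχ => ?_
      rw [he χ hχ, mul_assoc]
      rfl
    rw [Finset.sum_congr rfl (fun u _ => h1 u), Finset.sum_comm]
    refine Finset.sum_congr rfl fun χ hχ => ?_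
    rw [← Finset.mul_sum, hw χ hχ, mul_assoc]
  have hl2 : (l : ℂ) = ∑ χ ∈ irrF M, (e χ : ℂ) * w χ :=
    mul_right_cancel₀ (card_ne (G := U)) hlsum
  have hl3 : (l : ℝ) = ∑ χ ∈ irrF M, e χ * w χ := by exact_mod_cast hl2
  have hk2 : (k : ℂ) = e (fun h : M => ((ρ h : ℂˣ) : ℂ)) := by
    rw [← he _ hρI, pr_eq]
    have h1 : ∀ h : M, f h * ((ρ h⁻¹ : ℂˣ) : ℂ) = θ h * (((ρ h)⁻¹ : ℂˣ) : ℂ) := by
      intro h
      rw [map_inv]
    rw [Finset.sum_congr rfl (fun h _ => h1 h), hk', mul_comm (k : ℂ), ← mul_assoc,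
      inv_mul_cancel₀ hcM, one_mul]
  have hk3 : (k : ℝ) = e (fun h : M => ((ρ h : ℂˣ) : ℂ)) := by exact_mod_cast hk2
  have hle : (k : ℝ) ≤ l := by
    rw [hk3, hl3]
    have h1 := Finset.single_le_sum (f := fun χ => e χ * (w χ : ℝ))
      (fun χ hχ => mul_nonneg (he0 χ hχ) (Nat.cast_nonneg _)) hρI
    simp only [hwρ, Nat.cast_one, mul_one] at h1
    exact h1
  exact_mod_cast hle

end artin

end Pool.Agent.U93.Q
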