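import Mathlib

/-!
# Cycle types in a wreath product of cyclic groups
-/

set_option autoImplicit false
set_option linter.unusedSectionVars false

namespace Pool.Agent.U93.Q

open Equiv Equiv.Perm

section regular

variable {β γ : Type} [Fintype β] [DecidableEq β] [Fintype γ] [DecidableEq γ]

/-- permutations all whose orbits have the same length -/
lemma cycleType_regular (σ : Perm β) {m : ℕ} (hm : 2 ≤ m)
    (h : ∀ (x : β) (j : ℕ), (σ ^ j) x = x ↔ m ∣ j) :
    σ.cycleType = Multiset.replicate (Fintype.card β / m) m := by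
  have h1 : ∀ l ∈ σ.cycleType, l = m := by
    intro l hl
    rw [mem_cycleType_iff] at hl
    obtain ⟨c, τ, hσ, hd, hc, hcl⟩ := hl
    obtain ⟨x, hx⟩ := hc.nonempty_support
    rw [mem_support] at hx
    have hτ : τ x = x := (hd x).resolve_left hx
    have key : ∀ j : ℕ, (σ ^ j) x = (c ^ j) x := by
      intro j
      rw [hσ, hd.commute.mul_pow, mul_apply, pow_apply_eq_self_of_apply_eq_self hτ]
    have h2 : ∀ j : ℕ, l ∣ j ↔ m ∣ j := by
      intro j
      rw [← hcl, ← hc.orderOf, orderOf_dvd_iff_pow_eq_one, hc.pow_eq_one_iff' hx, ← key, h]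
    exact Nat.dvd_antisymm ((h2 m).mpr dvd_rfl) ((h2 l).mp dvd_rfl)
  have h2 := Multiset.eq_replicate_of_mem h1
  have h3 : σ.support = Finset.univ := by
    ext x
    simp only [mem_support, Finset.mem_univ, iff_true]
    intro h4
    have h5 := (h x 1).mp (by rw [pow_one]; exact h4)
    have := Nat.le_of_dvd one_pos h5
    omega
  have h4 := sum_cycleType σ
  rw [h2, Multiset.sum_replicate, h3, Finset.card_univ, smul_eq_mul] at h4
  rw [h2]
  congr 1
  rw [← h4, Nat.mul_div_cancel _ (by omega)]

lemma sumCongr_left (σ : Perm β) :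
    (Perm.sumCongr σ 1 : Perm (β ⊕ γ)) = σ.viaEmbedding Function.Embedding.inl := by
  ext x
  rcases x with x | x
  · have h1 := viaEmbedding_apply σ (Function.Embedding.inl : β ↪ β ⊕ γ) x
    change _ = (σ.viaEmbedding Function.Embedding.inl) (Function.Embedding.inl x)
    rw [h1]
    rfl
  · have h1 := viaEmbedding_apply_of_notMem σ (Function.Embedding.inl : β ↪ β ⊕ γ) (Sum.inr x)
      (by rintro ⟨y, hy⟩; cases hy)
    rw [h1]
    rfl

lemma sumCongr_right (σ : Perm γ) :
    (Perm.sumCongr 1 σ : Perm (β ⊕ γ)) = σ.viaEmbedding Function.Embedding.inr := by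
  ext x
  rcases x with x | x
  · have h1 := viaEmbedding_apply_of_notMem σ (Function.Embedding.inr : γ ↪ β ⊕ γ) (Sum.inl x)
      (by rintro ⟨y, hy⟩; cases hy)
    rw [h1]
    rfl
  · have h1 := viaEmbedding_apply σ (Function.Embedding.inr : γ ↪ β ⊕ γ) x
    change _ = (σ.viaEmbedding Function.Embedding.inr) (Function.Embedding.inr x)
    rw [h1]
    rfl

lemma cycleType_sumCongr (σ : Perm β) (τ : Perm γ) :
    (Perm.sumCongr σ τ : Perm (β ⊕ γ)).cycleType = σ.cycleType + τ.cycleType := by
  have h1 : (Perm.sumCongr σ τ : Perm (β ⊕ γ)) = Perm.sumCongr σ 1 * Perm.sumCongr 1 τ := by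
    rw [Perm.sumCongr_mul, mul_one, one_mul]
  have h2 : Disjoint (Perm.sumCongr σ 1 : Perm (β ⊕ γ)) (Perm.sumCongr 1 τ) := by
    intro x
    rcases x with x | x
    · right; rfl
    · left; rfl
  rw [h1, h2.cycleType_mul, sumCongr_left, sumCongr_right]
  classical
  congr 1
  · exact @cycleType_extendDomain _ _ _ _ _ _ _ (fun a => Classical.propDecidable _) _ _
  · exact @cycleType_extendDomain _ _ _ _ _ _ _ (fun a => Classical.propDecidable _) _ _

end regular

section wreath

variable (m q : ℕ)

/-- the translations of the fibres -/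
def nuP : (ZMod m → Multiplicative (ZMod q)) →* Perm (ZMod m × ZMod q) where
  toFun c :=
    { toFun := fun p => (p.1, p.2 + (c p.1).toAdd)
      invFun := fun p => (p.1, p.2 - (c p.1).toAdd)
      left_inv := fun p => by simp
      right_inv := fun p => by simp }
  map_one' := by ext p <;> simp
  map_mul' c d := by
    ext p
    · simp
    · simp only [Equiv.coe_fn_mk, Pi.mul_apply, toAdd_mul, Perm.coe_mul, Function.comp_apply]
      ring

/-- the shift of the fibres -/
def tsh : Perm (ZMod m × ZMod q) where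
  toFun p := (p.1 + 1, p.2)
  invFun p := (p.1 - 1, p.2)
  left_inv p := by simp
  right_inv p := by simp

variable {m q}

@[simp] lemma nuP_apply (c : ZMod m → Multiplicative (ZMod q)) (p : ZMod m × ZMod q) :
    nuP m q c p = (p.1, p.2 + (c p.1).toAdd) := rfl

@[simp] lemma tsh_apply (p : ZMod m × ZMod q) : tsh m q p = (p.1 + 1, p.2) := rfl

lemma nuP_injective : Function.Injective (nuP m q) := by
  intro c d h
  funext i
  have h1 := congrArg Prod.snd (DFunLike.congr_fun h (i, 0))
  simp only [nuP_apply, zero_add] at h1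
  exact Multiplicative.toAdd.injective h1

/-- the shifted element -/
def shf (c : ZMod m → Multiplicative (ZMod q)) : ZMod m → Multiplicative (ZMod q) :=
  fun i => c (i - 1)

lemma tsh_conj (c : ZMod m → Multiplicative (ZMod q)) :
    tsh m q * nuP m q c * (tsh m q)⁻¹ = nuP m q (shf c) := by
  rw [mul_inv_eq_iff_eq_mul]
  ext p
  · rfl
  · simp only [Perm.coe_mul, Function.comp_apply, nuP_apply, tsh_apply, shf]
    rw [add_sub_cancel_right]

variable [NeZero m]

lemma tsh_pow (j : ℕ) (p : ZMod m × ZMod q) : (tsh m q ^ j) p = (p.1 + j, p.2) := by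
  induction j with
  | zero => simp
  | succ j ih =>
    rw [pow_succ', mul_apply, ih, tsh_apply]
    push_cast
    rw [add_assoc]

lemma w_pow (c : ZMod m → Multiplicative (ZMod q)) (j : ℕ) (p : ZMod m × ZMod q) :
    ((nuP m q c * tsh m q) ^ j) p
      = (p.1 + j, p.2 + ∑ s ∈ Finset.range j, (c (p.1 + 1 + (s : ℕ))).toAdd) := by
  induction j with
  | zero => simp
  | succ j ih =>
    rw [pow_succ', mul_apply, ih, mul_apply, tsh_apply, nuP_apply, Finset.sum_range_succ]
    push_cast
    refine Prod.ext ?_ ?_
    · simp only; ring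
    · simp only
      rw [add_assoc]
      congr 4
      ring

lemma sum_range_zmod {A : Type} [AddCommMonoid A] (f : ZMod m → A) (x : ZMod m) :
    ∑ s ∈ Finset.range m, f (x + (s : ℕ)) = ∑ y : ZMod m, f y := by
  rw [← Equiv.sum_comp (Equiv.addLeft x) f]
  refine Finset.sum_nbij' (fun s => (s : ZMod m)) (fun y => y.val) ?_ ?_ ?_ ?_ ?_
  · intro s _; exact Finset.mem_univ _
  · intro y _; exact Finset.mem_range.mpr (ZMod.val_lt y)
  · intro s hs; exact ZMod.val_cast_of_lt (Finset.mem_range.mp hs)
  · intro y _; exact ZMod.natCast_zmod_val y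
  · intro s _; rfl

lemma w_pow_m (c : ZMod m → Multiplicative (ZMod q)) (p : ZMod m × ZMod q) :
    ((nuP m q c * tsh m q) ^ m) p = (p.1, p.2 + ∑ y : ZMod m, (c y).toAdd) := by
  rw [w_pow, sum_range_zmod (fun y => (c y).toAdd), ZMod.natCast_self, add_zero]

lemma w_pow_mul (c : ZMod m → Multiplicative (ZMod q)) (k : ℕ) (p : ZMod m × ZMod q) :
    ((nuP m q c * tsh m q) ^ (m * k)) p
      = (p.1, p.2 + k * ∑ y : ZMod m, (c y).toAdd) := by
  rw [pow_mul]
  induction k with
  | zero => simp
  | succ k ih =>
    rw [pow_succ', mul_apply, ih, w_pow_m]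
    push_cast
    refine Prod.ext rfl ?_
    simp only
    ring

variable [NeZero q]

lemma tsh_cycleType (hm : 2 ≤ m) : (tsh m q).cycleType = Multiset.replicate q m := by
  rw [cycleType_regular _ hm]
  · congr 1
    rw [Fintype.card_prod, ZMod.card, ZMod.card, Nat.mul_div_cancel_left _ (by omega)]
  · intro p j
    rw [tsh_pow, Prod.ext_iff]
    simp only [add_eq_left, and_true]
    exact ZMod.natCast_eq_zero_iff j m

lemma w_cycleType (hm : 2 ≤ m) (c : ZMod m → Multiplicative (ZMod q))
    (hc : ∑ y : ZMod m, (c y).toAdd = 1) :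
    (nuP m q c * tsh m q).cycleType = {q * m} := by
  have hq : 0 < q := Nat.pos_of_ne_zero (NeZero.ne q)
  rw [cycleType_regular _ (m := m * q) (by nlinarith)]
  · rw [Fintype.card_prod, ZMod.card, ZMod.card, Nat.div_self (by positivity), mul_comm q m]
    rfl
  · intro p j
    constructor
    · intro h
      have h1 := congrArg Prod.fst h
      rw [w_pow] at h1
      simp only [add_eq_left] at h1
      obtain ⟨k, rfl⟩ := (ZMod.natCast_eq_zero_iff j m).mp h1
      rw [w_pow_mul, hc, mul_one] at h
      have h2 := congrArg Prod.snd h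
      simp only [add_eq_left] at h2
      exact Nat.mul_dvd_mul_left m ((ZMod.natCast_eq_zero_iff k q).mp h2)
    · rintro ⟨k, rfl⟩
      rw [mul_assoc, w_pow_mul, hc, mul_one]
      refine Prod.ext rfl ?_
      simp

lemma nuP_support (c : ZMod m → Multiplicative (ZMod q)) :
    (nuP m q c).support.card = q * (Finset.univ.filter fun i => c i ≠ 1).card := by
  have h1 : (nuP m q c).support = (Finset.univ.filter fun i => c i ≠ 1) ×ˢ Finset.univ := by
    ext p
    simp only [mem_support, nuP_apply, Finset.mem_product, Finset.mem_filter, Finset.mem_univ,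
      true_and, and_true]
    rw [not_iff_not, Prod.ext_iff]
    simp only [true_and, add_eq_left]
    exact toAdd_eq_zero
  rw [h1, Finset.card_product, Finset.card_univ, ZMod.card, mul_comm]

lemma nuP_cycleType (hq : q.Prime) (c : ZMod m → Multiplicative (ZMod q)) :
    (nuP m q c).cycleType
      = Multiset.replicate (Finset.univ.filter fun i => c i ≠ 1).card q := by
  by_cases h : c = 1
  · rw [h, map_one, cycleType_one]
    simp
  · have h1 : c ^ q = 1 := by
      funext i
      have h2 : (c i) ^ q = 1 := by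
        apply Multiplicative.toAdd.injective
        rw [toAdd_pow, toAdd_one]
        rw [nsmul_eq_mul, ZMod.natCast_self, zero_mul]
      exact h2
    have : Fact q.Prime := ⟨hq⟩
    have h2 : orderOf (nuP m q c) = q := by
      rw [orderOf_injective _ nuP_injective]
      exact orderOf_eq_prime h1 h
    obtain ⟨k, hk⟩ := cycleType_prime_order (σ := nuP m q c) (by rw [h2]; exact hq)
    rw [h2] at hk
    have h3 := sum_cycleType (nuP m q c)
    rw [hk, Multiset.sum_replicate, smul_eq_mul, nuP_support, mul_comm] at h3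
    rw [hk, Nat.eq_of_mul_eq_mul_left hq.pos h3]

end wreath

end Pool.Agent.U93.Q
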