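import Mathlib
import Pool.Agent.U93.Q.Deriv
import Pool.Agent.U93.Q.Art

/-!
# The shape of Heilbronn functions of quadratic degree on symmetric groups
-/

set_option autoImplicit false
set_option linter.unusedSectionVars false

namespace Pool.Agent.U93.Q

open Equiv Equiv.Perm Pool.Agent.U93.S Pool.Agent.U93.L Pool.Agent.H302R2 Pool.Agent.U93

lemma sg_ct {α : Type} [Fintype α] [DecidableEq α] (g : Perm α) : sg g.cycleType = sign g :=
  (sg_cycleType g).symm

lemma ok_ct {α : Type} [Fintype α] [DecidableEq α] (g : Perm α) : Ok g.cycleType :=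
  fun _ hx => two_le_of_mem_cycleType hx

/-- the formula on the permutations without exceptional cycles -/
lemma formula {α : Type} [Fintype α] [DecidableEq α] {f : Multiset ℕ → ℂ}
    (h : Rel (Fintype.card α) f) (h12 : 12 ≤ Fintype.card α) (g : Perm α)
    (hg : ∀ x ∈ g.cycleType, ¬ Exc (Fintype.card α) x) :
    f g.cycleType = (f 0 - gam f 1 * Fintype.card α + (f {2} + 2 * gam f (-1)
        - gam f (-1) * Fintype.card α)) / 2
      + (f 0 - gam f 1 * Fintype.card α - (f {2} + 2 * gam f (-1)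
        - gam f (-1) * Fintype.card α)) / 2 * sn g
      + ((gam f 1 + gam f (-1)) / 2 + (gam f 1 - gam f (-1)) / 2 * sn g) * fx g := by
  have h1 := h.shape h12 g.cycleType (ok_ct g) (by
    rw [sum_cycleType]; exact Finset.card_le_univ _) hg
  rw [h1, sg_ct, sum_cycleType]
  have h2 : (Fintype.card α : ℂ) = fx g + g.support.card := by
    rw [← fx_add g]; push_cast; rfl
  rw [h2]
  unfold sn
  rcases Int.units_eq_one_or (sign g) with h3 | h3
  · rw [h3, if_pos rfl]
    push_cast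
    ring
  · rw [h3, if_neg (by decide)]
    push_cast
    ring

lemma formula' {α : Type} [Fintype α] [DecidableEq α] {f : Multiset ℕ → ℂ}
    (h : Rel (Fintype.card α) f) (h12 : 12 ≤ Fintype.card α) : ∃ a₁ a₂ : ℂ, ∀ g : Perm α,
    (∀ x ∈ g.cycleType, ¬ Exc (Fintype.card α) x) → f g.cycleType = a₁ + a₂ * sn g
      + ((gam f 1 + gam f (-1)) / 2 + (gam f 1 - gam f (-1)) / 2 * sn g) * fx g :=
  ⟨_, _, fun g hg => formula h h12 g hg⟩

/-- the sign character of the group of order two -/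
def sgC : Multiplicative (ZMod 2) →* ℂˣ := sgH.comp sw

lemma sgC_one : ((sgC 1 : ℂˣ) : ℂ) = 1 := by rw [map_one]; rfl

lemma sgC_gen : ((sgC (Multiplicative.ofAdd 1) : ℂˣ) : ℂ) = -1 := by
  change ((sign (swap (0 : Fin 2) 1) : ℤ) : ℂ) = -1
  rw [sign_swap (by decide)]
  simp

lemma sumC (f : Multiplicative (ZMod 2) → ℂ) : ∑ y, f y = f 1 + f (Multiplicative.ofAdd 1) := by
  have hu : (Finset.univ : Finset (Multiplicative (ZMod 2))) = {1, Multiplicative.ofAdd 1} := by
    decide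
  rw [hu, Finset.sum_pair (by decide)]

lemma units_inv_neg {u : ℂˣ} (h : (u : ℂ) = -1) : ((u⁻¹ : ℂˣ) : ℂ) = -1 := by
  rw [Units.val_inv_eq_inv_val, h]; norm_num

lemma units_inv_one {u : ℂˣ} (h : (u : ℂ) = 1) : ((u⁻¹ : ℂˣ) : ℂ) = 1 := by
  rw [Units.val_inv_eq_inv_val, h]; norm_num

/-- the slopes are multiplicities -/
lemma slopes {α : Type} [Fintype α] [DecidableEq α] {F : Perm α → ℂ} (hF : IsHeilbronn F)
    (h6 : 6 ≤ Fintype.card α) : ∃ c₁ c₂ : ℕ,
      (gam (fF F) 1 + gam (fF F) (-1)) / 2 = c₁ ∧ (gam (fF F) 1 - gam (fF F) (-1)) / 2 = c₂ := by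
  classical
  let β := Fin (Fintype.card α - 6)
  obtain ⟨F', hF', hF'e⟩ := transfer (β := Fin 2 ⊕ (Fin 2 ⊕ (Fin 2 ⊕ β))) hF (by
    simp only [Fintype.card_sum, Fintype.card_fin, β]
    omega)
  let C := Multiplicative (ZMod 2)
  let φ : C × C × C →* Perm (Fin 2 ⊕ (Fin 2 ⊕ (Fin 2 ⊕ β))) :=
    { toFun := fun x => Perm.sumCongr (sw x.1) (Perm.sumCongr (sw x.2.1)
        (Perm.sumCongr (sw x.2.2) 1))
      map_one' := by
        simp only [Prod.fst_one, Prod.snd_one, map_one, sumCongr_one]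
      map_mul' := fun x y => by
        simp only [Prod.fst_mul, Prod.snd_mul, map_mul, Perm.sumCongr_mul, one_mul] }
  have hφ : ∀ a b c : C, F' (φ (a, b, c))
      = fF F ((sw a).cycleType + ((sw b).cycleType + (sw c).cycleType)) := by
    intro a b c
    rw [hF'e]
    change fF F (Perm.sumCongr (sw a) (Perm.sumCongr (sw b)
        (Perm.sumCongr (sw c) (1 : Perm β)))).cycleType = _
    rw [cycleType_sumCongr, cycleType_sumCongr, cycleType_sumCongr, cycleType_one, add_zero]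
  have hg0 : gam (fF F) 1 = (fF F 0 - fF F {2, 2}) / 4 := if_pos rfl
  have hg1 : gam (fF F) (-1) = (fF F {2} - fF F ({2, 2} + {2})) / 4 := if_neg (by decide)
  have hs1 : (sw 1).cycleType = 0 := by rw [map_one, cycleType_one]
  have e22 : ({2} : Multiset ℕ) + {2} = {2, 2} := rfl
  have e222 : ({2} : Multiset ℕ) + {2, 2} = {2, 2} + {2} := add_comm _ _
  have hcard : (Nat.card (C × C × C) : ℂ) = 8 := by
    rw [Nat.card_eq_fintype_card]
    rfl
  have hi1 : (((sgC (1 : C))⁻¹ : ℂˣ) : ℂ) = 1 := units_inv_one sgC_one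
  have hi2 : (((sgC (Multiplicative.ofAdd 1))⁻¹ : ℂˣ) : ℂ) = -1 := units_inv_neg sgC_gen
  obtain ⟨n₁, h1⟩ := hF'.mult_hom φ (sgC.comp (MonoidHom.fst C (C × C)))
  obtain ⟨n₂, h2⟩ := hF'.mult_hom φ ((sgC.comp ((MonoidHom.fst C C).comp (MonoidHom.snd C (C × C))))
    * (sgC.comp ((MonoidHom.snd C C).comp (MonoidHom.snd C (C × C)))))
  refine ⟨n₁, n₂, ?_, ?_⟩
  · rw [Fintype.sum_prod_type, sumC, Fintype.sum_prod_type, sumC, sumC, sumC,
      Fintype.sum_prod_type, sumC, sumC, sumC] at h1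
    simp only [hφ, MonoidHom.comp_apply, MonoidHom.coe_fst, hs1, sw_gen_cycleType, hi1, hi2,
      add_zero, zero_add, e22, e222] at h1
    rw [hcard] at h1
    rw [hg0, hg1]
    linear_combination (1 / 8) * h1
  · rw [Fintype.sum_prod_type, sumC, Fintype.sum_prod_type, sumC, sumC, sumC,
      Fintype.sum_prod_type, sumC, sumC, sumC] at h2
    simp only [hφ, MonoidHom.mul_apply, mul_inv, Units.val_mul, MonoidHom.comp_apply,
      MonoidHom.coe_fst, MonoidHom.coe_snd, hs1, sw_gen_cycleType, hi1, hi2,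
      add_zero, zero_add, e22, e222] at h2
    rw [hcard] at h2
    rw [hg0, hg1]
    linear_combination (1 / 8) * h2

/-- **The shape on the symmetric group** -/
theorem shape_sym {α : Type} [Fintype α] [DecidableEq α] {F : Perm α → ℂ} (hF : IsHeilbronn F)
    {r : ℕ} (hr : F 1 = r) (hrk : Small (Fintype.card α) 2 r)
    (h12 : 12 ≤ Fintype.card α) : ∃ (c₁ c₂ : ℕ) (a₁ a₂ : ℂ),
      Shp (Fintype.card α) (MonoidHom.id (Perm α)) F c₁ c₂ a₁ a₂ := by
  obtain ⟨c₁, c₂, h1, h2⟩ := slopes hF (by omega)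
  obtain ⟨a₁, a₂, ha⟩ := formula' (rel_of hF hr hrk) h12
  refine ⟨c₁, c₂, a₁, a₂, fun g hg => ?_⟩
  rw [MonoidHom.id_apply] at hg ⊢
  have h3 := ha g hg
  rw [fF_eq hF.conj, h1, h2] at h3
  exact h3

end Pool.Agent.U93.Q
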