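import Mathlib
import Pool.Agent.U93.Q.Alt
import Pool.Agent.U93.L.Dbl

/-!
# The characters of the whole group
-/

set_option autoImplicit false
set_option linter.unusedSectionVars false

namespace Pool.Agent.U93.Q

open Equiv Equiv.Perm Pool.Agent.U93.S Pool.Agent.U93.L Pool.Agent.H302R2 Pool.Agent.U93

section comb

open Classical in
/-- the contribution of a cycle -/
noncomputable def dl (f : Multiset ℕ → ℂ) (l : ℕ) (e : ℤˣ) : ℂ :=
  if e = 1 then f {l} - f (ee l) else f ({l} + {2}) - f (ee l + {2})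

variable {n : ℕ} {f : Multiset ℕ → ℂ} (h : Rel n f)

include h

lemma Rel.dl_eq {l : ℕ} (hl : 2 ≤ l) {s : Multiset ℕ} (hs : Ok s) (h1 : l + s.sum ≤ n) :
    f ({l} + s) - f (ee l + s) = dl f l (sg s) := by
  unfold dl
  rcases Int.units_eq_one_or (sg s) with h3 | h3
  · rw [if_pos h3]
    have h4 := h.ctx hl hs Ok.zero (by rw [h3, sg_zero]) h1 (by rw [Multiset.sum_zero]; omega)
    rw [add_zero, add_zero] at h4
    exact h4
  · rw [if_neg (by rw [h3]; decide)]
    have hs2 : 2 ≤ s.sum := by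
      rcases Nat.eq_zero_or_pos s.card with h4 | h4
      · rw [Multiset.card_eq_zero] at h4
        rw [h4, sg_zero] at h3
        exact absurd h3 (by decide)
      · obtain ⟨x, hx⟩ := Multiset.card_pos_iff_exists_mem.mp h4
        exact (hs x hx).trans (Multiset.le_sum_of_mem hx)
    exact h.ctx hl hs (Ok.sing (le_refl 2)) (by rw [h3, sg_two]) h1
      (by rw [Multiset.sum_singleton]; omega)

open Classical in
/-- the full formula for normalized functions -/
lemma Rel.full (hn : Nrm f) (h12 : 12 ≤ n) : ∀ s : Multiset ℕ, Ok s → s.sum ≤ n →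
      f s = (if sg s = 1 then f 0 else f {2})
        + ((s.filter (Exc n)).map (fun l => dl f l (sg s * sg {l}))).sum := by
  have key : ∀ s : Multiset ℕ, ∀ k : ℕ, Ok s → 2 * k + s.sum ≤ n →
      f (k • {2} + s) = (if sg (k • {2} + s) = 1 then f 0 else f {2})
        + ((s.filter (Exc n)).map (fun l => dl f l (sg (k • {2} + s) * sg {l}))).sum := by
    intro s
    induction s using Multiset.induction_on with
    | empty =>
      intro k _ hk
      rw [Multiset.filter_zero, Multiset.map_zero, Multiset.sum_zero, add_zero, add_zero]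
      rw [Multiset.sum_zero, add_zero] at hk
      refine h.const hn h12 (k • {2}) ?_ ?_ ?_
      · rw [Multiset.nsmul_singleton]; exact Ok.rep le_rfl _
      · rw [Multiset.sum_nsmul, Multiset.sum_singleton, smul_eq_mul]; omega
      · intro x hx
        rw [Multiset.nsmul_singleton] at hx
        rw [Multiset.eq_of_mem_replicate hx]
        rintro (⟨_, h1⟩ | ⟨_, _, h1⟩) <;> omega
    | cons a s ih =>
      intro k hs hk
      have ha : 2 ≤ a := hs a (Multiset.mem_cons_self a s)
      have hs' : Ok s := fun x hx => hs x (Multiset.mem_cons_of_mem hx)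
      rw [Multiset.sum_cons] at hk
      have h1 : k • ({2} : Multiset ℕ) + (a ::ₘ s) = {a} + (k • {2} + s) := by
        rw [← Multiset.singleton_add]
        abel
      have hok : Ok (k • ({2} : Multiset ℕ) + s) := by
        refine Ok.add ?_ hs'
        rw [Multiset.nsmul_singleton]
        exact Ok.rep le_rfl _
      have hsum : (k • ({2} : Multiset ℕ) + s).sum = 2 * k + s.sum := by
        rw [Multiset.sum_add, Multiset.sum_nsmul, Multiset.sum_singleton, smul_eq_mul]
        ring
      have h2 := h.dl_eq ha hok (by rw [hsum]; omega)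
      have hsg : sg ({a} + (k • {2} + s)) = sg (ee a + (k • ({2} : Multiset ℕ) + s)) := by
        rw [sg_add {a}, sg_add (ee a), sg_ee]
      -- the induction hypothesis for the context
      have h3 : f (ee a + (k • {2} + s))
          = (if sg ({a} + (k • {2} + s)) = 1 then f 0 else f {2})
          + ((s.filter (Exc n)).map
            (fun l => dl f l (sg ({a} + (k • {2} + s)) * sg {l}))).sum := by
        rw [hsg]
        by_cases he : Even a
        · have e2 : ee a = {2} := if_pos he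
          have e3 : ({2} : Multiset ℕ) + (k • {2} + s) = (k + 1) • {2} + s := by
            rw [add_nsmul, one_nsmul]
            abel
          rw [e2, e3]
          exact ih (k + 1) hs' (by omega)
        · have e2 : ee a = 0 := if_neg he
          rw [e2, zero_add]
          exact ih k hs' (by omega)
      rw [h1]
      by_cases hexc : Exc n a
      · rw [Multiset.filter_cons_of_pos _ hexc, Multiset.map_cons, Multiset.sum_cons]
        have h4 : sg ({a} + (k • {2} + s)) * sg {a} = sg (k • ({2} : Multiset ℕ) + s) := by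
          rw [sg_add, mul_comm (sg {a}), mul_assoc, Int.units_mul_self, mul_one]
        rw [h4]
        linear_combination h2 + h3
      · rw [Multiset.filter_cons_of_neg _ hexc]
        have h5 := h.all hn h12 a ha (by omega) hexc _ hok (by rw [hsum]; omega)
        rw [h5]
        exact h3
  intro s hs hsum
  have h1 := key s 0 hs (by omega)
  rwa [zero_nsmul, zero_add] at h1

end comb

section cosets

variable {α : Type} [Fintype α] [DecidableEq α]

open Classical in
/-- permutations with a marked cycle -/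
lemma sum_cyc {M : Type*} [AddCommMonoid M] (φ : Perm α → Perm α → M) :
    ∑ g : Perm α, ∑ C ∈ g.cycleFactorsFinset, φ g C
      = ∑ C ∈ Finset.univ.filter (fun C : Perm α => C.IsCycle), ∑ u ∈ Dj C, φ (C * u) C := by
  rw [Finset.sum_sigma', Finset.sum_sigma']
  refine Finset.sum_nbij' (fun p => ⟨p.2, p.2⁻¹ * p.1⟩) (fun p => ⟨p.1 * p.2, p.1⟩) ?_ ?_ ?_ ?_ ?_
  · rintro ⟨g, C⟩ hp
    rw [Finset.mem_sigma] at hp
    have h1 := (mem_cycleFactorsFinset_iff.mp hp.2).1
    have h2 := disjoint_mul_inv_of_mem_cycleFactorsFinset hp.2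
    rw [Finset.mem_sigma, Finset.mem_filter, mem_Dj]
    refine ⟨⟨Finset.mem_univ _, h1⟩, ?_⟩
    have h3 : Disjoint C (g * C⁻¹) := h2.symm
    have h4 : C⁻¹ * g = g * C⁻¹ := by
      have h5 := h3.commute.eq
      calc C⁻¹ * g = C⁻¹ * ((g * C⁻¹) * C) := by group
        _ = C⁻¹ * (C * (g * C⁻¹)) := by rw [h5]
        _ = g * C⁻¹ := by group
    change Disjoint C (C⁻¹ * g)
    rw [h4]
    exact h3
  · rintro ⟨C, u⟩ hp
    rw [Finset.mem_sigma, Finset.mem_filter, mem_Dj] at hp
    rw [Finset.mem_sigma]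
    refine ⟨Finset.mem_univ _, ?_⟩
    change C ∈ (C * u).cycleFactorsFinset
    rw [hp.2.cycleFactorsFinset_mul_eq_union, hp.1.2.cycleFactorsFinset_eq_singleton]
    exact Finset.mem_union_left _ (Finset.mem_singleton_self C)
  · rintro ⟨g, C⟩ _
    simp
  · rintro ⟨C, u⟩ _
    simp
  · rintro ⟨g, C⟩ _
    simp

/-- the coset sums for the exceptional cycles vanish -/
def CosE (n : ℕ) (X : Perm α → ℂ) : Prop :=
  ∀ C : Perm α, C.IsCycle → Exc n C.support.card →
    ∑ u ∈ Dj C, X (C * u) = 0 ∧ ∑ u ∈ Dj C, ((sign u : ℤ) : ℂ) * X (C * u) = 0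

lemma CosE.inv {n : ℕ} {X : Perm α → ℂ} (hX : CosE n X) : CosE n (fun g => X g⁻¹) := by
  intro C hC hE
  have h1 := hX C⁻¹ hC.inv (by rw [support_inv]; exact hE)
  have hd : ∀ u, u ∈ Dj C ↔ u⁻¹ ∈ Dj C⁻¹ := by
    intro u
    rw [mem_Dj, mem_Dj, disjoint_inv_left_iff, disjoint_inv_right_iff]
  have hm : ∀ u ∈ Dj C, X (C * u)⁻¹ = X (C⁻¹ * u⁻¹) := by
    intro u hu
    rw [mem_Dj] at hu
    rw [hu.commute.eq, mul_inv_rev]
  constructor
  · rw [← h1.1]
    refine Finset.sum_nbij' (fun u => u⁻¹) (fun u => u⁻¹) ?_ ?_ ?_ ?_ ?_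
    · intro u hu; exact (hd u).mp hu
    · intro u hu; exact (hd u⁻¹).mpr (by rwa [inv_inv])
    · intro u _; exact inv_inv u
    · intro u _; exact inv_inv u
    · intro u hu; exact hm u hu
  · rw [← h1.2]
    refine Finset.sum_nbij' (fun u => u⁻¹) (fun u => u⁻¹) ?_ ?_ ?_ ?_ ?_
    · intro u hu; exact (hd u).mp hu
    · intro u hu; exact (hd u⁻¹).mpr (by rwa [inv_inv])
    · intro u _; exact inv_inv u
    · intro u _; exact inv_inv u
    · intro u hu
      simp only [sign_inv]
      rw [hm u hu]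

open Classical in
lemma marked_zero {n : ℕ} (δ : ℕ → ℤˣ → ℂ) {X : Perm α → ℂ} (hX : CosE n X) :
    ∑ g : Perm α, (∑ C ∈ g.cycleFactorsFinset,
      if Exc n C.support.card then δ C.support.card (sign g * sign C) else 0) * X g = 0 := by
  have h1 : ∀ g : Perm α, (∑ C ∈ g.cycleFactorsFinset,
      if Exc n C.support.card then δ C.support.card (sign g * sign C) else 0) * X g
      = ∑ C ∈ g.cycleFactorsFinset,
        (if Exc n C.support.card then δ C.support.card (sign g * sign C) else 0) * X g := by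
    intro g
    rw [Finset.sum_mul]
  rw [Finset.sum_congr rfl (fun g _ => h1 g),
    sum_cyc (fun g C => (if Exc n C.support.card then δ C.support.card (sign g * sign C) else 0)
      * X g)]
  refine Finset.sum_eq_zero fun C hC => ?_
  have hCc := (Finset.mem_filter.mp hC).2
  by_cases hE : Exc n C.support.card
  · have h2 := hX C hCc hE
    have h3 : ∀ u ∈ Dj C, (if Exc n C.support.card then
        δ C.support.card (sign (C * u) * sign C) else 0) * X (C * u)
        = (δ C.support.card 1 + δ C.support.card (-1)) / 2 * X (C * u)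
          + (δ C.support.card 1 - δ C.support.card (-1)) / 2
            * (((sign u : ℤ) : ℂ) * X (C * u)) := by
      intro u _
      have h4 : sign (C * u) * sign C = sign u := by
        rw [map_mul, mul_comm (sign C), mul_assoc, Int.units_mul_self, mul_one]
      rw [if_pos hE, h4]
      rcases Int.units_eq_one_or (sign u) with h5 | h5
      · rw [h5]; push_cast; ring
      · rw [h5]; push_cast; ring
    rw [Finset.sum_congr rfl h3, Finset.sum_add_distrib, ← Finset.mul_sum, ← Finset.mul_sum, h2.1,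
      h2.2]
    ring
  · refine Finset.sum_eq_zero fun u _ => ?_
    rw [if_neg hE, zero_mul]

open Classical in
/-- the full formula -/
lemma full_formula {f : Multiset ℕ → ℂ} (h : Rel (Fintype.card α) f)
    (h12 : 12 ≤ Fintype.card α) : ∃ a₁ a₂ : ℂ,
    a₁ - a₂ = f {2} + 2 * gam f (-1) - gam f (-1) * Fintype.card α ∧
    ∀ g : Perm α, f g.cycleType = a₁ + a₂ * sn g
      + ((gam f 1 + gam f (-1)) / 2 + (gam f 1 - gam f (-1)) / 2 * sn g) * fx g
      + ∑ C ∈ g.cycleFactorsFinset, if Exc (Fintype.card α) C.support.card then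
        dl (nor f) C.support.card (sign g * sign C) else 0 := by
  refine ⟨(f 0 - gam f 1 * Fintype.card α + (f {2} + 2 * gam f (-1)
        - gam f (-1) * Fintype.card α)) / 2, (f 0 - gam f 1 * Fintype.card α - (f {2} + 2 * gam f (-1)
        - gam f (-1) * Fintype.card α)) / 2, by ring, fun g => ?_⟩
  have h1 := (nor_rel h).full (nor_nrm f) h12 g.cycleType (ok_ct g) (by
    rw [sum_cycleType]; exact Finset.card_le_univ _)
  have h2 : ((g.cycleType.filter (Exc (Fintype.card α))).map
      (fun l => dl (nor f) l (sg g.cycleType * sg {l}))).sum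
      = ∑ C ∈ g.cycleFactorsFinset, if Exc (Fintype.card α) C.support.card then
        dl (nor f) C.support.card (sign g * sign C) else 0 := by
    rw [← Finset.sum_filter, cycleType_def, Multiset.filter_map, Multiset.map_map]
    have h3 : ∀ C ∈ g.cycleFactorsFinset.filter (fun C => Exc (Fintype.card α) C.support.card),
        dl (nor f) C.support.card (sign g * sign C) = dl (nor f) C.support.card
          (sg (Multiset.map (Finset.card ∘ support) g.cycleFactorsFinset.1)
            * sg {C.support.card}) := by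
      intro C hC
      have h4 := (mem_cycleFactorsFinset_iff.mp (Finset.mem_filter.mp hC).1).1
      have h5 : sign C = sg {C.support.card} := by
        rw [sg_cycleType, h4.cycleType]
      rw [h5, sg_cycleType g, cycleType_def]
    rw [Finset.sum_congr rfl h3]
    rfl
  rw [h2] at h1
  have h3 : nor f 0 = f 0 := by rw [nor, Multiset.sum_zero]; simp
  have h4 : nor f {2} = f {2} + 2 * gam f (-1) := by
    rw [nor, Multiset.sum_singleton, sg_two]
    push_cast
    ring
  rw [h3, h4, nor, sg_ct, sum_cycleType] at h1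
  have h5 : (Fintype.card α : ℂ) = fx g + g.support.card := by
    rw [← fx_add g]; push_cast; rfl
  rw [h5]
  have h6 : f g.cycleType = (if sign g = 1 then f 0 else f {2} + 2 * gam f (-1))
      + (∑ C ∈ g.cycleFactorsFinset, if Exc (Fintype.card α) C.support.card then
        dl (nor f) C.support.card (sign g * sign C) else 0)
      - gam f (sign g) * g.support.card := by
    rw [← h1]
    ring
  rw [h6]
  unfold sn
  rcases Int.units_eq_one_or (sign g) with h7 | h7
  · rw [h7, if_pos rfl]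
    push_cast
    ring
  · rw [h7, if_neg (by decide)]
    push_cast
    ring

end cosets

section pair

open Pool.Agent.H541R3.ART Pool.Agent.R389

variable {α : Type} [Fintype α] [DecidableEq α]

lemma pair_of_sum {M : Type} [Group M] [Finite M] [Fintype M] (φ : M →* Perm α) {θ : M → ℂ}
    (hθ : IsHeilbronn θ) {χ : M → ℂ} (hχ : χ ∈ Irr M) (c₁ c₂ : ℕ) (a₁ a₂ : ℂ)
    (hsum : ∑ h : M, θ h * χ h⁻¹
      = ∑ h : M, (a₁ + a₂ * sn (φ h) + (c₁ + c₂ * sn (φ h)) * fx (φ h)) * χ h⁻¹) :
    (∃ k : ℝ, 0 ≤ k ∧ ∑ h : M, θ h * χ h⁻¹ = k) ∧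
    ((χ ≠ fun _ => 1) → (χ ≠ fun h : M => sn (φ h)) → ∑ h : M, (fx (φ h) : ℂ) * χ h = 0 →
      ∑ h : M, sn (φ h) * (fx (φ h) : ℂ) * χ h = 0 → ∑ h : M, θ h * χ h⁻¹ = 0) := by
  classical
  let ψ : M →* ℂˣ := sgH.comp φ
  have h1I : (fun _ : M => (1 : ℂ)) ∈ Irr M := by
    have h := lin_irr (1 : M →* ℂˣ)
    simpa using h
  have hψI : (fun h : M => sn (φ h)) ∈ Irr M := lin_irr ψ
  have hgen : (χ ≠ fun _ => 1) → (χ ≠ fun h : M => sn (φ h)) → ∑ h : M, θ h * χ h⁻¹
      = c₁ * ∑ h : M, (fx (φ h) : ℂ) * χ h⁻¹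
        + c₂ * ∑ h : M, sn (φ h) * (fx (φ h) : ℂ) * χ h⁻¹ := by
    intro h1 h2
    have e1 := pair_ne h1I hχ (Ne.symm h1)
    have e2 := pair_ne hψI hχ (Ne.symm h2)
    have e3 : ∀ h : M, (a₁ + a₂ * sn (φ h) + (c₁ + c₂ * sn (φ h)) * fx (φ h)) * χ h⁻¹
        = a₁ * (1 * χ h⁻¹) + a₂ * (sn (φ h) * χ h⁻¹)
        + c₁ * ((fx (φ h) : ℂ) * χ h⁻¹) + c₂ * (sn (φ h) * (fx (φ h) : ℂ) * χ h⁻¹) := by
      intro h
      ring
    rw [hsum, Finset.sum_congr rfl (fun h _ => e3 h), Finset.sum_add_distrib,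
      Finset.sum_add_distrib, Finset.sum_add_distrib, ← Finset.mul_sum (a := a₁),
      ← Finset.mul_sum (a := a₂), ← Finset.mul_sum (a := (c₁ : ℂ)),
      ← Finset.mul_sum (a := (c₂ : ℂ)), e1, e2]
    ring
  constructor
  · by_cases h1 : χ = fun _ => 1
    · obtain ⟨m, hm⟩ := hθ.mult_hom (MonoidHom.id M) 1
      refine ⟨m * Nat.card M, by positivity, ?_⟩
      push_cast
      rw [← hm, h1]
      simp
    by_cases h2 : χ = fun h : M => sn (φ h)
    · obtain ⟨m, hm⟩ := hθ.mult_hom (MonoidHom.id M) ψ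
      refine ⟨m * Nat.card M, by positivity, ?_⟩
      push_cast
      rw [← hm, h2]
      refine Finset.sum_congr rfl fun h _ => ?_
      rw [MonoidHom.id_apply]
      congr 1
      rw [← map_inv]
      rfl
    · rw [hgen h1 h2]
      obtain ⟨k, hk0, hk⟩ := fix_pair φ hχ 1
      obtain ⟨l, hl0, hl⟩ := fix_pair φ hχ ψ
      refine ⟨c₁ * k + c₂ * l, by positivity, ?_⟩
      push_cast
      rw [← hk, ← hl]
      simp only [MonoidHom.one_apply, Units.val_one, one_mul]
      rfl
  · intro h1 h2 h3 h4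
    rw [hgen h1 h2]
    have e1 : ∑ h : M, (fx (φ h) : ℂ) * χ h⁻¹ = 0 := by
      rw [← h3, ← Equiv.sum_comp (Equiv.inv M)]
      refine Finset.sum_congr rfl fun h _ => ?_
      rw [Equiv.inv_apply, inv_inv, map_inv, fx_inv]
    have e2 : ∑ h : M, sn (φ h) * (fx (φ h) : ℂ) * χ h⁻¹ = 0 := by
      rw [← h4, ← Equiv.sum_comp (Equiv.inv M)]
      refine Finset.sum_congr rfl fun h _ => ?_
      rw [Equiv.inv_apply, inv_inv, map_inv, fx_inv, sn_inv]
    rw [e1, e2, mul_zero, mul_zero, add_zero]

/-- sums over the symmetric group -/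
lemma sum_full {F : Perm α → ℂ} (hF : IsHeilbronn F) (hN : NilZ (Fin 2) F)
    (h12 : 12 ≤ Fintype.card α) : ∃ (c₁ c₂ : ℕ) (a₁ a₂ : ℂ),
    (gam (fF F) (-1) = 0 → c₁ = c₂) ∧
    a₁ - a₂ = fF F {2} + 2 * gam (fF F) (-1) - gam (fF F) (-1) * Fintype.card α ∧
    ∀ X : Perm α → ℂ, CosE (Fintype.card α) X → ∑ g : Perm α, F g * X g⁻¹
      = ∑ g : Perm α, (a₁ + a₂ * sn g + (c₁ + c₂ * sn g) * fx g) * X g⁻¹ := by
  classical
  obtain ⟨c₁, c₂, h1, h2⟩ := slopes hF (by omega)
  obtain ⟨a₁, a₂, ha, hf⟩ := full_formula (rel_of_nil hF hN) h12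
  refine ⟨c₁, c₂, a₁, a₂, ?_, ha, fun X hX => ?_⟩
  · intro h
    rw [h] at h1 h2
    have h3 : (c₁ : ℂ) = c₂ := by rw [← h1, ← h2]; ring
    exact_mod_cast h3
  · have h3 := marked_zero (n := Fintype.card α) (dl (nor (fF F))) hX.inv
    have h4 : ∀ g : Perm α, F g * X g⁻¹
        = (a₁ + a₂ * sn g + (c₁ + c₂ * sn g) * fx g) * X g⁻¹
          + (∑ C ∈ g.cycleFactorsFinset, if Exc (Fintype.card α) C.support.card then
        dl (nor (fF F)) C.support.card (sign g * sign C) else 0) * X g⁻¹ := by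
      intro g
      rw [← fF_eq hF.conj g, hf g, h1, h2]
      ring
    rw [Finset.sum_congr rfl (fun g _ => h4 g), Finset.sum_add_distrib, h3, add_zero]

/-- sums of the doubled average -/
lemma av_sum [Nontrivial α] {θ : alternatingGroup α → ℂ} {X : Perm α → ℂ}
    (hXc : ∀ a b, X (b * a * b⁻¹) = X a) :
    ∑ g : Perm α, av θ g * X g⁻¹ = 2 * ∑ p : alternatingGroup α, θ p * X (p : Perm α)⁻¹ := by
  classical
  have h1 : ∀ t : Perm α, ∑ g : Perm α, ext0 (alternatingGroup α) θ (t⁻¹ * g * t) * X g⁻¹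
      = ∑ g : Perm α, ext0 (alternatingGroup α) θ g * X g⁻¹ := by
    intro t
    rw [← Equiv.sum_comp (MulAut.conj t).toEquiv
      (fun g => ext0 (alternatingGroup α) θ (t⁻¹ * g * t) * X g⁻¹)]
    refine Finset.sum_congr rfl fun g _ => ?_
    have h2 : (MulAut.conj t).toEquiv g = t * g * t⁻¹ := rfl
    rw [h2]
    have h3 : t⁻¹ * (t * g * t⁻¹) * t = g := by group
    have h4 : (t * g * t⁻¹)⁻¹ = t * g⁻¹ * t⁻¹ := by group
    rw [h3, h4, hXc]
  have h2 : ∑ g : Perm α, ext0 (alternatingGroup α) θ g * X g⁻¹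
      = ∑ p : alternatingGroup α, θ p * X (p : Perm α)⁻¹ := by
    have h3 : ∑ p : alternatingGroup α, θ p * X (p : Perm α)⁻¹
        = ∑ p : alternatingGroup α, ext0 (alternatingGroup α) θ (p : Perm α)
          * X (p : Perm α)⁻¹ := by
      refine Finset.sum_congr rfl fun p _ => ?_
      rw [ext0_mem p.2]
    rw [h3, ← Finset.sum_subset (Finset.subset_univ
      (Finset.univ.filter fun g : Perm α => g ∈ alternatingGroup α))]
    · exact Finset.sum_subtype (p := fun g => g ∈ alternatingGroup α) _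
        (fun g => by rw [Finset.mem_filter]; simp)
        (fun g : Perm α => ext0 (alternatingGroup α) θ g * X g⁻¹)
    · intro g _ hg
      rw [ext0_not, zero_mul]
      intro h
      exact hg (Finset.mem_filter.mpr ⟨Finset.mem_univ _, h⟩)
  have h3 : ∑ g : Perm α, av θ g * X g⁻¹ = (Nat.card (alternatingGroup α) : ℂ)⁻¹ *
      ∑ t : Perm α, ∑ g : Perm α, ext0 (alternatingGroup α) θ (t⁻¹ * g * t) * X g⁻¹ := by
    rw [Finset.sum_comm, Finset.mul_sum]
    refine Finset.sum_congr rfl fun g _ => ?_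
    rw [av, mul_assoc, Finset.sum_mul]
  rw [h3, Finset.sum_congr rfl (fun t _ => h1 t), Finset.sum_const, Finset.card_univ,
    nsmul_eq_mul, h2]
  have h5 := two_mul_nat_card_alternatingGroup (α := α)
  have h6 : (Fintype.card (Perm α) : ℂ) = 2 * Nat.card (alternatingGroup α) := by
    rw [← Nat.card_eq_fintype_card, ← h5]
    push_cast
    rfl
  have h7 : (Nat.card (alternatingGroup α) : ℂ) ≠ 0 := by exact_mod_cast Nat.card_pos.ne'
  rw [h6]
  field_simp

/-- The characters of the whole group. -/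
theorem pair_full (G : Subgroup (Perm α)) [Fintype G] (hG : alternatingGroup α ≤ G) {θ : G → ℂ}
    (hθ : IsHeilbronn θ) {r : ℕ} (hr : θ 1 = r)
    (hrk : Small (Fintype.card α) 2 r) (h12 : 12 ≤ Fintype.card α) {X : Perm α → ℂ}
    (hXc : ∀ a b, X (b * a * b⁻¹) = X a) (hXI : (fun g : G => X g) ∈ Irr G)
    (hX : CosE (Fintype.card α) X) :
    (∃ k : ℝ, 0 ≤ k ∧ ∑ g : G, θ g * X (g : Perm α)⁻¹ = k) ∧
    (((fun g : G => X g) ≠ fun _ => 1) → ((fun g : G => X g) ≠ fun g : G => sn (g : Perm α)) →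
      ∑ g : G, (fx (g : Perm α) : ℂ) * X g = 0 →
      ∑ g : G, sn (g : Perm α) * (fx (g : Perm α) : ℂ) * X g = 0 →
      ∑ g : G, θ g * X (g : Perm α)⁻¹ = 0) := by
  classical
  have hnt : Nontrivial α := by
    rw [← Fintype.one_lt_card_iff_nontrivial]
    omega
  suffices h : ∃ (c₁ c₂ : ℕ) (a₁ a₂ : ℂ), ∑ g : G, θ g * X (g : Perm α)⁻¹
      = ∑ g : G, (a₁ + a₂ * sn (g : Perm α) + (c₁ + c₂ * sn (g : Perm α)) * fx (g : Perm α))
        * X (g : Perm α)⁻¹ by
    obtain ⟨c₁, c₂, a₁, a₂, h1⟩ := h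
    exact pair_of_sum G.subtype hθ hXI c₁ c₂ a₁ a₂ h1
  by_cases h : G ≤ alternatingGroup α
  · have hGA : ∀ g, g ∈ G ↔ g ∈ alternatingGroup α := fun g => ⟨fun hg => h hg, fun hg => hG hg⟩
    let ζ : alternatingGroup α ≃ G := Equiv.subtypeEquivRight fun g => (hGA g).symm
    have hζ : ∀ p, ((ζ p : G) : Perm α) = p := fun p => rfl
    have hθ' : IsHeilbronn (fun p : alternatingGroup α => θ (Subgroup.inclusion hG p)) :=
      hθ.comp (Subgroup.inclusion hG)
    set θ' : alternatingGroup α → ℂ := fun p => θ (Subgroup.inclusion hG p) with hθ'd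
    have hr' : θ' 1 = r := by
      rw [hθ'd]
      simp only
      rw [map_one]
      exact hr
    obtain ⟨c₁, c₂, a₁, a₂, hc, ha, hs⟩ := sum_full (av_heil hθ') (av_nilZ hθ' hr' hrk) h12
    have hz : ∀ s : Multiset ℕ, sg s = -1 → fF (av θ') s = 0 := by
      intro s hs
      unfold fF
      by_cases h : ∃ g : Perm α, g.cycleType = s
      · rw [dif_pos h]
        apply av_odd
        rw [mem_alternatingGroup, sg_cycleType, h.choose_spec, hs]
        decide
      · exact dif_neg h
    have hgm : gam (fF (av θ')) (-1) = 0 := by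
      have h3 : gam (fF (av θ')) (-1) = (fF (av θ') {2} - fF (av θ') ({2, 2} + {2})) / 4 :=
        if_neg (by decide)
      rw [h3, hz _ sg_two, hz _ (by rw [sg_add, sg_two_two, sg_zero, sg_two, one_mul])]
      simp
    have hcc := hc hgm
    have haa : a₁ = a₂ := by
      rw [hgm, hz _ sg_two] at ha
      linear_combination ha
    have h1 := hs X hX
    rw [av_sum hXc] at h1
    refine ⟨c₁, 0, a₁, 0, ?_⟩
    have e1 : ∑ g : G, θ g * X (g : Perm α)⁻¹
        = ∑ p : alternatingGroup α, θ' p * X (p : Perm α)⁻¹ := by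
      rw [← Equiv.sum_comp ζ]
      rfl
    have e2 : ∑ g : Perm α, (a₁ + a₂ * sn g + (c₁ + c₂ * sn g) * fx g) * X g⁻¹
        = 2 * ∑ p : alternatingGroup α, (a₁ + c₁ * fx (p : Perm α)) * X (p : Perm α)⁻¹ := by
      rw [← Finset.sum_subset (Finset.subset_univ
        (Finset.univ.filter fun g : Perm α => g ∈ alternatingGroup α)),
        Finset.sum_subtype (p := fun g => g ∈ alternatingGroup α) _
        (fun g => by rw [Finset.mem_filter]; simp), Finset.mul_sum]
      · refine Finset.sum_congr rfl fun p _ => ?_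
        have hs : sn (p : Perm α) = 1 := by
          unfold sn
          rw [mem_alternatingGroup.mp p.2]
          simp
        rw [hs, haa, hcc]
        ring
      · intro g _ hg
        have hg' : sign g ≠ 1 := by
          intro h
          exact hg (Finset.mem_filter.mpr ⟨Finset.mem_univ _, mem_alternatingGroup.mpr h⟩)
        have hs : sn g = -1 := by
          unfold sn
          rw [(Int.units_eq_one_or _).resolve_left hg']
          simp
        rw [hs, haa, hcc]
        ring
    rw [e2] at h1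
    have h2 := mul_left_cancel₀ (two_ne_zero) h1
    rw [e1, h2, ← Equiv.sum_comp ζ]
    refine Finset.sum_congr rfl fun p _ => ?_
    rw [hζ]
    push_cast
    ring
  · rw [SetLike.not_le_iff_exists] at h
    obtain ⟨o, ho, ho'⟩ := h
    have ht : ∀ g : Perm α, g ∈ G := by
      intro g
      by_cases hg : g ∈ alternatingGroup α
      · exact hG hg
      · have h1 := mul_mem (hG (odd_mul hg (b := o⁻¹) (fun h => ho' ((inv_mem_iff).mp h)))) ho
        rwa [inv_mul_cancel_right] at h1
    let ζ : Perm α →* G :=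
      { toFun := fun g => ⟨g, ht g⟩
        map_one' := rfl
        map_mul' := fun _ _ => rfl }
    let ζ' : Perm α ≃ G :=
      { toFun := fun g => ⟨g, ht g⟩
        invFun := fun g => g
        left_inv := fun _ => rfl
        right_inv := fun _ => rfl }
    have hF : IsHeilbronn (fun g => θ (ζ g)) := hθ.comp ζ
    obtain ⟨c₁, c₂, a₁, a₂, -, -, hs⟩ := sum_full hF (nil_two hF (r := r) (by
      rw [map_one]; exact hr) hrk) h12
    refine ⟨c₁, c₂, a₁, a₂, ?_⟩
    have h1 := hs X hX
    rw [← Equiv.sum_comp ζ', ← Equiv.sum_comp ζ']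
    exact h1

end pair

section artin

open Pool.Agent.H541R3.ART Pool.Agent.R389

variable {n : ℕ}

/-- The Artin L-functions of the characters of the whole group -/
theorem order_full (G : Subgroup (Perm (Fin n))) (hG : alternatingGroup (Fin n) ≤ G) {s₀ : ℂ}
    (A : ArtinData G s₀) {r : ℕ} (hr : meromorphicOrderAt (A.Lin ⊥ 1) s₀ = (r : WithTop ℤ))
    (hrk : Small n 2 r) (h12 : 12 ≤ n) {X : Perm (Fin n) → ℂ}
    (hXc : ∀ a b, X (b * a * b⁻¹) = X a) (hXI : (fun g : G => X g) ∈ Irr G)
    (hX : CosE n X) :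
    0 ≤ meromorphicOrderAt (A.L fun g => X g) s₀ ∧
    (((fun g : G => X g) ≠ fun _ => 1) → ((fun g : G => X g) ≠ fun g : G => sn (g : Perm (Fin n))) →
      ∑ᶠ g : G, (fx (g : Perm (Fin n)) : ℂ) * X g = 0 →
      ∑ᶠ g : G, sn (g : Perm (Fin n)) * (fx (g : Perm (Fin n)) : ℂ) * X g = 0 →
      meromorphicOrderAt (A.L fun g => X g) s₀ = 0) := by
  classical
  have : Fintype G := Fintype.ofFinite G
  have hcn : Fintype.card (Fin n) = n := Fintype.card_fin n
  obtain ⟨⟨k, hk0, hk⟩, h0⟩ := pair_full G hG A.isHeilbronn (A.theta_one hr)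
    (by rw [hcn]; exact hrk) (by rw [hcn]; exact h12) hXc hXI (by rw [hcn]; exact hX)
  have hp := theta_pair A.ord hXI
  have hG0 : 0 < (Nat.card G : ℝ) := by exact_mod_cast Nat.card_pos
  rw [← A.coe_ord hXI]
  have hsum : ∑ g : G, (theta A.ord : G → ℂ) g * X (g : Perm (Fin n))⁻¹
      = (A.ord (fun g : G => X g) : ℂ) * Nat.card G := hp
  constructor
  · rw [hk] at hsum
    have h2 : k = (A.ord (fun g : G => X g) : ℝ) * Nat.card G := by exact_mod_cast hsum
    have h3 : (0 : ℝ) ≤ (A.ord (fun g : G => X g) : ℝ) := by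
      by_contra hcon
      push Not at hcon
      nlinarith
    exact_mod_cast h3
  · intro e1 e2 e3 e4
    rw [finsum_eq_sum_of_fintype] at e3 e4
    rw [h0 e1 e2 e3 e4] at hsum
    have h2 : (0 : ℝ) = (A.ord (fun g : G => X g) : ℝ) * Nat.card G := by exact_mod_cast hsum
    have h3 : (A.ord (fun g : G => X g) : ℝ) = 0 := by
      rcases mul_eq_zero.mp h2.symm with h4 | h4
      · exact h4
      · exact absurd h4 hG0.ne'
    have h4 : A.ord (fun g : G => X g) = 0 := by exact_mod_cast h3
    rw [h4]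
    rfl

end artin

end Pool.Agent.U93.Q
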