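import Mathlib
import Pool.Agent.U93.Q.Full

/-!
# Artin L-functions over intermediate fields: the general form
-/

set_option autoImplicit false
set_option linter.unusedSectionVars false

namespace Pool.Agent.U93.Q

open Equiv Equiv.Perm Pool.Agent.U93.S Pool.Agent.U93.L Pool.Agent.H302R2 Pool.Agent.U93

section pointwise

variable {α : Type} [Fintype α] [DecidableEq α]

open Classical in
/-- the contribution of the exceptional cycles -/
noncomputable def ec (n : ℕ) (δ : ℕ → ℤˣ → ℂ) (g : Perm α) : ℂ :=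
  ∑ C ∈ g.cycleFactorsFinset,
    if Exc n C.support.card then δ C.support.card (sign g * sign C) else 0

lemma pt_sym {F : Perm α → ℂ} (hF : IsHeilbronn F) (hN : NilZ (Fin 2) F)
    (h12 : 12 ≤ Fintype.card α) : ∃ (c₁ c₂ : ℕ) (a₁ a₂ : ℂ) (δ : ℕ → ℤˣ → ℂ),
    ∀ g, F g = a₁ + a₂ * sn g + (c₁ + c₂ * sn g) * fx g + ec (Fintype.card α) δ g := by
  obtain ⟨c₁, c₂, h1, h2⟩ := slopes hF (by omega)
  obtain ⟨a₁, a₂, -, hf⟩ := full_formula (rel_of_nil hF hN) h12
  refine ⟨c₁, c₂, a₁, a₂, dl (nor (fF F)), fun g => ?_⟩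
  rw [← fF_eq hF.conj g, hf g, h1, h2]
  rfl

lemma ec_div (n : ℕ) (δ : ℕ → ℤˣ → ℂ) (g : Perm α) :
    ec n (fun l e => δ l e / 2) g = ec n δ g / 2 := by
  unfold ec
  rw [Finset.sum_div]
  refine Finset.sum_congr rfl fun C _ => ?_
  split_ifs
  · rfl
  · simp

variable {θ : alternatingGroup α → ℂ}

lemma inv_all' (hθ : IsHeilbronn θ) {r : ℕ} (hr : θ 1 = r)
    (hrk : Small (Fintype.card α) 2 r) (h12 : 12 ≤ Fintype.card α) {g : Perm α}
    (hg : g ∈ alternatingGroup α) :
    Inv θ g ∨ (g.IsCycle ∧ Exc (Fintype.card α) g.support.card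
      ∧ Fintype.card α ≤ g.support.card + 1) := by
  classical
  by_cases hexc : ∀ x ∈ g.cycleType, ¬ Exc (Fintype.card α) x
  · exact Or.inl (inv_all hθ hr hrk h12 hg hexc)
  by_cases hc : Subgroup.centralizer {g} ≤ alternatingGroup α
  swap
  · exact Or.inl (inv_of_cent hθ hc)
  have h1 := card_le_of_centralizer_le_alternating hc
  have hodd := OnCycleFactors.odd_of_centralizer_le_alternatingGroup hc
  obtain ⟨l, hl, hle⟩ : ∃ l, l ∈ g.cycleType ∧ Exc (Fintype.card α) l := by
    push Not at hexc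
    exact hexc
  have hlo := hodd l hl
  obtain ⟨c, τ, hgc, hd, hcc, hcl⟩ := mem_cycleType_iff.mp hl
  have hsum : c.support.card + τ.support.card ≤ Fintype.card α := by
    rw [← hd.card_support_mul]
    exact Finset.card_le_univ _
  have hl2 : 2 ≤ l := two_le_of_mem_cycleType hl
  have hsc : sign c = 1 := by
    rw [hcc.sign, hcl, hlo.neg_one_pow, neg_neg]
  have hsg : sign g = 1 := mem_alternatingGroup.mp hg
  have hst : sign τ = 1 := by
    rw [hgc, map_mul, hsc, one_mul] at hsg
    exact hsg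
  by_cases hτ : τ = 1
  · rw [hτ, mul_one] at hgc
    have hct : g.cycleType = {l} := by rw [hgc, hcc.cycleType, hcl]
    rw [hct, Multiset.sum_singleton] at h1
    right
    rw [hgc, hcl]
    exact ⟨hcc, hle, h1⟩
  · left
    have h2 := two_le_supp hτ
    rw [hgc]
    refine inv_mul hθ hr hrk (mem_alternatingGroup.mpr hsc) (mem_alternatingGroup.mpr hst) hd
      (inv_of_cent hθ fun h3 => ?_) (inv_of_cent hθ fun h3 => ?_)
    · have h4 := card_le_of_centralizer_le_alternating h3
      rw [sum_cycleType] at h4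
      omega
    · have h4 := card_le_of_centralizer_le_alternating h3
      rw [sum_cycleType] at h4
      omega

lemma pt_alt (hθ : IsHeilbronn θ) {r : ℕ} (hr : θ 1 = r)
    (hrk : Small (Fintype.card α) 2 r) (h12 : 12 ≤ Fintype.card α) :
    ∃ (c₁ c₂ : ℕ) (a₁ a₂ : ℂ) (δ : ℕ → ℤˣ → ℂ), ∀ g : alternatingGroup α,
      θ g = a₁ + a₂ * sn (g : Perm α) + (c₁ + c₂ * sn (g : Perm α)) * fx (g : Perm α)
        + ec (Fintype.card α) δ (g : Perm α) ∨
      ((g : Perm α).IsCycle ∧ Exc (Fintype.card α) (g : Perm α).support.card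
        ∧ Fintype.card α ≤ (g : Perm α).support.card + 1) := by
  have hnt : Nontrivial α := by
    rw [← Fintype.one_lt_card_iff_nontrivial]
    omega
  have hF := av_heil hθ
  have hN := av_nilZ hθ hr hrk
  obtain ⟨c₁, c₂, a₁, a₂, hc, ha, -⟩ := sum_full hF hN h12
  obtain ⟨c₁', c₂', h1, h2⟩ := slopes hF (by omega)
  obtain ⟨b₁, b₂, hb, hf⟩ := full_formula (rel_of_nil hF hN) h12
  have hz : ∀ s : Multiset ℕ, sg s = -1 → fF (av θ) s = 0 := by
    intro s hs
    unfold fF
    by_cases h : ∃ g : Perm α, g.cycleType = s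
    · rw [dif_pos h]
      apply av_odd
      rw [mem_alternatingGroup, sg_cycleType, h.choose_spec, hs]
      decide
    · exact dif_neg h
  have hgm : gam (fF (av θ)) (-1) = 0 := by
    have h3 : gam (fF (av θ)) (-1) = (fF (av θ) {2} - fF (av θ) ({2, 2} + {2})) / 4 :=
      if_neg (by decide)
    rw [h3, hz _ sg_two, hz _ (by rw [sg_add, sg_two_two, sg_zero, sg_two, one_mul])]
    simp
  rw [hgm] at h1
  refine ⟨c₁', 0, (b₁ + b₂) / 2, 0, fun l e => dl (nor (fF (av θ))) l e / 2, fun g => ?_⟩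
  rcases inv_all' hθ hr hrk h12 g.2 with h3 | h3
  · left
    have h4 := hf (g : Perm α)
    rw [fF_eq hF.conj, av_inv h3, ext0_mem g.2, hgm] at h4
    have hs : sn (g : Perm α) = 1 := by
      unfold sn
      rw [mem_alternatingGroup.mp g.2]
      simp
    rw [ec_div, hs, ← h1]
    rw [hs] at h4
    have h5 : θ ⟨(g : Perm α), g.2⟩ = θ g := rfl
    rw [h5] at h4
    unfold ec
    push_cast
    linear_combination h4 / 2
  · right
    exact h3

/-- the pointwise formula on the groups between the alternating and the symmetric group -/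
theorem pt_sub (G : Subgroup (Perm α)) (hG : alternatingGroup α ≤ G) {θ : G → ℂ}
    (hθ : IsHeilbronn θ) {r : ℕ} (hr : θ 1 = r)
    (hrk : Small (Fintype.card α) 2 r) (h12 : 12 ≤ Fintype.card α) :
    ∃ (c₁ c₂ : ℕ) (a₁ a₂ : ℂ) (δ : ℕ → ℤˣ → ℂ), ∀ g : G,
      θ g = a₁ + a₂ * sn (g : Perm α) + (c₁ + c₂ * sn (g : Perm α)) * fx (g : Perm α)
        + ec (Fintype.card α) δ (g : Perm α) ∨
      ((g : Perm α).IsCycle ∧ Exc (Fintype.card α) (g : Perm α).support.card
        ∧ Fintype.card α ≤ (g : Perm α).support.card + 1) := by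
  by_cases h : G ≤ alternatingGroup α
  · obtain ⟨c₁, c₂, a₁, a₂, δ, h1⟩ := pt_alt (hθ.comp (Subgroup.inclusion hG)) (r := r)
      (by rw [map_one]; exact hr) hrk h12
    refine ⟨c₁, c₂, a₁, a₂, δ, fun g => ?_⟩
    exact h1 ⟨(g : Perm α), h g.2⟩
  · rw [SetLike.not_le_iff_exists] at h
    obtain ⟨o, ho, ho'⟩ := h
    have ht : ∀ g : Perm α, g ∈ G := by
      intro g
      by_cases hg : g ∈ alternatingGroup α
      · exact hG hg
      · have h1 := mul_mem (hG (odd_mul hg (b := o⁻¹) (fun h => ho' ((inv_mem_iff).mp h)))) ho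
        rwa [inv_mul_cancel_right] at h1
    let ζ : Perm α →* G :=
      { toFun := fun g => ⟨g, ht g⟩
        map_one' := rfl
        map_mul' := fun _ _ => rfl }
    have hF : IsHeilbronn (fun g => θ (ζ g)) := hθ.comp ζ
    obtain ⟨c₁, c₂, a₁, a₂, δ, h1⟩ := pt_sym hF (nil_two hF (r := r) (by
      rw [map_one]; exact hr) hrk) h12
    refine ⟨c₁, c₂, a₁, a₂, δ, fun g => Or.inl ?_⟩
    exact h1 (g : Perm α)

lemma cyc_inv {C g : Perm α} (h : C ∈ g.cycleFactorsFinset) : C⁻¹ ∈ g⁻¹.cycleFactorsFinset := by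
  rw [mem_cycleFactorsFinset_iff] at h ⊢
  refine ⟨h.1.inv, fun a ha => ?_⟩
  rw [support_inv] at ha
  have hb : C⁻¹ a ∈ C.support := by
    rw [← support_inv, apply_mem_support, support_inv]
    exact ha
  have h1 := h.2 _ hb
  have h2 : C (C⁻¹ a) = a := by rw [← Perm.mul_apply, mul_inv_cancel, Perm.one_apply]
  rw [eq_comm, inv_eq_iff_eq, ← h1, h2]

lemma cyc_inv_iff {C g : Perm α} : C ∈ g⁻¹.cycleFactorsFinset ↔ C⁻¹ ∈ g.cycleFactorsFinset := by
  constructor
  · intro h
    have := cyc_inv h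
    rwa [inv_inv] at this
  · intro h
    have := cyc_inv h
    rwa [inv_inv] at this

/-- a permutation with a cycle of length at least `n - 1` is this cycle -/
lemma eq_of_long {C g : Perm α} (h : C ∈ g.cycleFactorsFinset)
    (hl : Fintype.card α ≤ C.support.card + 1) : g = C := by
  have h1 := disjoint_mul_inv_of_mem_cycleFactorsFinset h
  by_contra hne
  have h2 : g * C⁻¹ ≠ 1 := by
    intro h3
    exact hne (mul_inv_eq_one.mp h3)
  have h3 := two_le_supp h2
  have h4 : (g * C⁻¹).support.card + C.support.card ≤ Fintype.card α := by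
    rw [← h1.card_support_mul]
    exact Finset.card_le_univ _
  omega

end pointwise

section subgroup

open Pool.Agent.H541R3.ART Pool.Agent.R389

variable {α : Type} [Fintype α] [DecidableEq α] {G : Subgroup (Perm α)}

open Classical in
/-- For each cycle `C` of exceptional length the sum of `χ (h)` over the `h ∈ M` which have `C` as
one of their cycles is zero, and also the sum of `sign(h) χ(h)`. -/
def Van (n : ℕ) (M : Subgroup G) (χ : M → ℂ) : Prop :=
  ∀ C : Perm α, C.IsCycle → Exc n C.support.card →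
    ∑ᶠ h : M, (if C ∈ ((h : G) : Perm α).cycleFactorsFinset then χ h else 0) = 0 ∧
    ∑ᶠ h : M, (if C ∈ ((h : G) : Perm α).cycleFactorsFinset then
      sn ((h : G) : Perm α) * χ h else 0) = 0

/-- If no element of `M` has a cycle of exceptional length, then the condition is empty. -/
lemma van_of_free {n : ℕ} {M : Subgroup G} (χ : M → ℂ)
    (hM : ∀ h ∈ M, ∀ l ∈ (h : Perm α).cycleType, ¬ Exc n l) : Van n M χ := by
  classical
  have h1 : ∀ C : Perm α, Exc n C.support.card → ∀ h : M,
      C ∉ ((h : G) : Perm α).cycleFactorsFinset := by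
    intro C hE h hC
    refine hM h h.2 C.support.card ?_ hE
    rw [cycleType_def, Multiset.mem_map]
    exact ⟨C, hC, rfl⟩
  intro C _ hE
  constructor
  · rw [finsum_eq_zero_of_forall_eq_zero]
    intro h
    rw [if_neg (h1 C hE h)]
  · rw [finsum_eq_zero_of_forall_eq_zero]
    intro h
    rw [if_neg (h1 C hE h)]

/-- sums over the subgroup -/
theorem pair_unif (hG : alternatingGroup α ≤ G) {θ : G → ℂ}
    (hθ : IsHeilbronn θ) {r : ℕ} (hr : θ 1 = r)
    (hrk : Small (Fintype.card α) 2 r) (h12 : 12 ≤ Fintype.card α)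
    (M : Subgroup G) [Fintype M] {χ : M → ℂ} (hχ : χ ∈ Irr M)
    (hV : Van (Fintype.card α) M χ) :
    (∃ k : ℝ, 0 ≤ k ∧ ∑ h : M, θ h * χ h⁻¹ = k) ∧
    ((χ ≠ fun _ => 1) → (χ ≠ fun h : M => sn ((h : G) : Perm α)) →
      ∑ h : M, (fx ((h : G) : Perm α) : ℂ) * χ h = 0 →
      ∑ h : M, sn ((h : G) : Perm α) * (fx ((h : G) : Perm α) : ℂ) * χ h = 0 →
      ∑ h : M, θ h * χ h⁻¹ = 0) := by
  classical
  obtain ⟨c₁, c₂, a₁, a₂, δ, hf⟩ := pt_sub G hG hθ hr hrk h12
  set n := Fintype.card α with hn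
  refine pair_of_sum (G.subtype.comp M.subtype) (hθ.comp M.subtype) hχ c₁ c₂ a₁ a₂ ?_
  -- the vanishing for the inverse
  have hV' : ∀ C : Perm α, C.IsCycle → Exc n C.support.card →
      ∑ h : M, (if C ∈ ((h : G) : Perm α).cycleFactorsFinset then χ h⁻¹ else 0) = 0 ∧
      ∑ h : M, (if C ∈ ((h : G) : Perm α).cycleFactorsFinset then
        sn ((h : G) : Perm α) * χ h⁻¹ else 0) = 0 := by
    intro C hC hE
    obtain ⟨h1, h2⟩ := hV C⁻¹ hC.inv (by rw [support_inv]; exact hE)
    rw [finsum_eq_sum_of_fintype] at h1 h2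
    constructor
    · refine Eq.trans ?_ h1
      rw [← Equiv.sum_comp (Equiv.inv M)]
      refine Finset.sum_congr rfl fun h _ => ?_
      rw [Equiv.inv_apply, inv_inv]
      have h3 : (((h⁻¹ : M) : G) : Perm α) = ((h : G) : Perm α)⁻¹ := rfl
      rw [h3]
      by_cases h4 : C⁻¹ ∈ ((h : G) : Perm α).cycleFactorsFinset
      · rw [if_pos h4, if_pos (cyc_inv_iff.mpr h4)]
      · rw [if_neg h4, if_neg (fun h5 => h4 (cyc_inv_iff.mp h5))]
    · refine Eq.trans ?_ h2
      rw [← Equiv.sum_comp (Equiv.inv M)]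
      refine Finset.sum_congr rfl fun h _ => ?_
      rw [Equiv.inv_apply, inv_inv]
      have h3 : (((h⁻¹ : M) : G) : Perm α) = ((h : G) : Perm α)⁻¹ := rfl
      rw [h3, sn_inv]
      by_cases h4 : C⁻¹ ∈ ((h : G) : Perm α).cycleFactorsFinset
      · rw [if_pos h4, if_pos (cyc_inv_iff.mpr h4)]
      · rw [if_neg h4, if_neg (fun h5 => h4 (cyc_inv_iff.mp h5))]
  -- each term
  have hterm : ∀ h : M, θ h * χ h⁻¹ = (a₁ + a₂ * sn ((h : G) : Perm α)
      + (c₁ + c₂ * sn ((h : G) : Perm α)) * fx ((h : G) : Perm α)) * χ h⁻¹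
      + ec n δ ((h : G) : Perm α) * χ h⁻¹ := by
    intro h
    rcases hf (h : G) with h1 | ⟨h1, h2, h3⟩
    · rw [h1]; ring
    · have h4 := (hV' _ h1 h2).1
      rw [Finset.sum_eq_single h] at h4
      · rw [if_pos] at h4
        · rw [h4]; ring
        · rw [h1.cycleFactorsFinset_eq_singleton]
          exact Finset.mem_singleton_self _
      · intro h' _ hne
        rw [if_neg]
        intro h5
        apply hne
        have h6 := eq_of_long h5 h3
        exact Subtype.ext (Subtype.ext h6)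
      · intro h5
        exact absurd (Finset.mem_univ _) h5
  change ∑ h : M, θ h * χ h⁻¹ = ∑ h : M, (a₁ + a₂ * sn ((h : G) : Perm α)
      + (c₁ + c₂ * sn ((h : G) : Perm α)) * fx ((h : G) : Perm α)) * χ h⁻¹
  rw [Finset.sum_congr rfl (fun h _ => hterm h), Finset.sum_add_distrib]
  have hz : ∑ h : M, ec n δ ((h : G) : Perm α) * χ h⁻¹ = 0 := by
    have h1 : ∀ h : M, ec n δ ((h : G) : Perm α) * χ h⁻¹
        = ∑ C ∈ Finset.univ.filter (fun C : Perm α => C.IsCycle ∧ Exc n C.support.card),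
          (if C ∈ ((h : G) : Perm α).cycleFactorsFinset then
            δ C.support.card (sign ((h : G) : Perm α) * sign C) * χ h⁻¹ else 0) := by
      intro h
      rw [ec, Finset.sum_mul, ← Finset.sum_filter]
      have h2 : (Finset.univ.filter (fun C : Perm α => C.IsCycle ∧ Exc n C.support.card)).filter
          (fun C => C ∈ ((h : G) : Perm α).cycleFactorsFinset)
          = ((h : G) : Perm α).cycleFactorsFinset.filter (fun C => Exc n C.support.card) := by
        ext C
        simp only [Finset.mem_filter, Finset.mem_univ, true_and]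
        constructor
        · rintro ⟨⟨-, h3⟩, h4⟩
          exact ⟨h4, h3⟩
        · rintro ⟨h3, h4⟩
          exact ⟨⟨(mem_cycleFactorsFinset_iff.mp h3).1, h4⟩, h3⟩
      rw [h2, Finset.sum_filter]
      refine Finset.sum_congr rfl fun C _ => ?_
      split_ifs
      · rfl
      · simp
    rw [Finset.sum_congr rfl (fun h _ => h1 h), Finset.sum_comm]
    refine Finset.sum_eq_zero fun C hC => ?_
    obtain ⟨hC1, hC2⟩ := (Finset.mem_filter.mp hC).2
    obtain ⟨e1, e2⟩ := hV' C hC1 hC2
    have h2 : ∀ h : M, (if C ∈ ((h : G) : Perm α).cycleFactorsFinset then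
        δ C.support.card (sign ((h : G) : Perm α) * sign C) * χ h⁻¹ else 0)
        = (δ C.support.card 1 + δ C.support.card (-1)) / 2
          * (if C ∈ ((h : G) : Perm α).cycleFactorsFinset then χ h⁻¹ else 0)
        + (δ C.support.card 1 - δ C.support.card (-1)) / 2 * sn C
          * (if C ∈ ((h : G) : Perm α).cycleFactorsFinset then
            sn ((h : G) : Perm α) * χ h⁻¹ else 0) := by
      intro h
      split_ifs
      · have h3 : sn C * sn ((h : G) : Perm α)
            = ((sign ((h : G) : Perm α) * sign C : ℤˣ) : ℤ) := by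
          unfold sn
          push_cast
          ring
        have h4 : (δ C.support.card 1 - δ C.support.card (-1)) / 2 * sn C
            * (sn ((h : G) : Perm α) * χ h⁻¹)
            = (δ C.support.card 1 - δ C.support.card (-1)) / 2
              * (sn C * sn ((h : G) : Perm α)) * χ h⁻¹ := by ring
        rw [h4, h3]
        rcases Int.units_eq_one_or (sign ((h : G) : Perm α) * sign C) with h5 | h5
        · rw [h5]; push_cast; ring
        · rw [h5]; push_cast; ring
      · simp
    rw [Finset.sum_congr rfl (fun h _ => h2 h), Finset.sum_add_distrib, ← Finset.mul_sum,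
      ← Finset.mul_sum, e1, e2, mul_zero, mul_zero, add_zero]
  rw [hz, add_zero]

end subgroup

end Pool.Agent.U93.Q
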